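import Pool.Agent.Y831.RC.FinC

set_option autoImplicit false
set_option linter.unusedVariables false

/-! # Counting the gaps `≥ H` for all `H ≥ log x`, without loss of a power of `x` -/

namespace Pool.Agent.Y831.RC

open Finset Pool.Agent.H256R2.SC

open scoped Classical

/-- comparison of `f(x^θ)` and `f(x)`, `θ ≥ 1 / (log₂ x)²` -/
theorem ff_theta2 (ε : ℝ) (hε : 0 < ε) (hε1 : ε ≤ 1) : ∃ x₀ : ℝ, ∀ x θ : ℝ, x₀ ≤ x →
    1 / Real.log (Real.log x) ^ 2 ≤ θ → θ ≤ 1 → 0 < ff x ∧ (1 - ε) * (θ * ff x) ≤ ff (x ^ θ) := by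
  obtain ⟨x₀, h⟩ := ev4 (max 4 (16 / ε))
  refine ⟨x₀, fun x θ hx hθ hθ1 => ?_⟩
  obtain ⟨m0, m4, m5, m3, m2, m1⟩ := h x hx
  have hxpos : 0 < x := by linarith
  have hlogx : Real.log (x ^ θ) = θ * Real.log x := Real.log_rpow hxpos θ
  unfold ff
  rw [hlogx]
  set K := max 4 (16 / ε) with hK
  have k1 : 4 ≤ K := le_max_left _ _
  have k2 : 16 / ε ≤ K := le_max_right _ _
  clear_value K
  set L := Real.log x with hL
  set l := Real.log L with hl
  set l3 := Real.log l with hl3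
  set l4 := Real.log l3 with hl4
  obtain ⟨a4, a3, a2, a1⟩ := s_pos (by linarith : (1:ℝ) ≤ K) m4 m3 m2 m1
  have p4 : 0 < l4 := by linarith
  have p3 : 0 < l3 := by linarith
  have p2 : 0 < l := by linarith
  have p1 : 0 < L := by linarith
  have hθ0 : 0 < θ := lt_of_lt_of_le (by positivity) hθ
  have hKε : 16 ≤ ε * K := by
    rw [div_le_iff₀ hε] at k2
    linarith
  have hA4 : 2 ≤ ε / 8 * l4 := by
    have : ε * K ≤ ε * l4 := mul_le_mul_of_nonneg_left m4 hε.le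
    linarith
  have hA2 : 2 * l3 ≤ ε / 8 * l := by
    have h1 : ε * (K * l3) ≤ ε * l := mul_le_mul_of_nonneg_left m2 hε.le
    have h2 : 16 * l3 ≤ ε * K * l3 := mul_le_mul_of_nonneg_right hKε p3.le
    linarith
  have hlogθ : -(2 * l3) ≤ Real.log θ := by
    have h1 : Real.log (1 / l ^ 2) ≤ Real.log θ := Real.log_le_log (by positivity) hθ
    rw [one_div, Real.log_inv, Real.log_pow, ← hl3] at h1
    push_cast at h1
    exact h1
  have hlogθ1 : Real.log θ ≤ 0 := Real.log_nonpos hθ0.le hθ1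
  have e1 : Real.log (θ * L) = Real.log θ + l := by
    rw [Real.log_mul hθ0.ne' p1.ne']
  rw [e1]
  have e2 : (1 - ε / 8) * l ≤ Real.log θ + l := by linarith
  have e2' : Real.log θ + l ≤ l := by linarith
  have h18 : 1 / 2 ≤ 1 - ε / 8 := by linarith
  have p2' : 0 < Real.log θ + l := lt_of_lt_of_le (by
    apply mul_pos _ p2
    linarith) e2
  have hl2 : (-1 : ℝ) ≤ Real.log (1 - ε / 8) := by
    have h1 : Real.log (1 / 2) ≤ Real.log (1 - ε / 8) := Real.log_le_log (by norm_num) h18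
    have h2 : Real.log (1 / 2) = -Real.log 2 := by rw [one_div, Real.log_inv]
    have h3 := Real.log_two_lt_d9
    linarith
  have e3 : l3 - 1 ≤ Real.log (Real.log θ + l) := by
    have h1 : Real.log ((1 - ε / 8) * l) ≤ Real.log (Real.log θ + l) :=
      Real.log_le_log (by
        apply mul_pos _ p2
        linarith) e2
    rw [Real.log_mul (by linarith) p2.ne', ← hl3] at h1
    linarith
  have e3' : Real.log (Real.log θ + l) ≤ l3 := Real.log_le_log p2' e2'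
  have hl3big : 2 ≤ l3 := by linarith
  have e4 : 1 / 2 * l3 ≤ Real.log (Real.log θ + l) := by linarith
  have p3' : 0 < Real.log (Real.log θ + l) := by linarith
  have e5 : (1 - ε / 8) * l4 ≤ Real.log (Real.log (Real.log θ + l)) := by
    have h1 : Real.log (1 / 2 * l3) ≤ Real.log (Real.log (Real.log θ + l)) :=
      Real.log_le_log (by positivity) e4
    rw [Real.log_mul (by norm_num) p3.ne', ← hl4, one_div, Real.log_inv] at h1
    have h3 := Real.log_two_lt_d9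
    linarith
  constructor
  · positivity
  · have q1 : 0 ≤ 1 - ε / 8 := by linarith
    have q2 : (1 - ε) ≤ (1 - ε / 8) ^ 2 * (1 - ε / 8) := by
      have h1 := one_add_mul_le_pow (show (-2:ℝ) ≤ -(ε / 8) by linarith) 3
      have h2 : (1 - ε / 8) ^ 2 * (1 - ε / 8) = (1 + -(ε / 8)) ^ 3 := by ring
      rw [h2]
      refine le_trans ?_ h1
      push_cast
      linarith
    calc (1 - ε) * (θ * (L * l ^ 2 * l4 / l3 ^ 2))
        ≤ ((1 - ε / 8) ^ 2 * (1 - ε / 8)) * (θ * (L * l ^ 2 * l4 / l3 ^ 2)) :=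
          mul_le_mul_of_nonneg_right q2 (by positivity)
      _ = θ * L * ((1 - ε / 8) * l) ^ 2 * ((1 - ε / 8) * l4) / l3 ^ 2 := by ring
      _ ≤ θ * L * (Real.log θ + l) ^ 2 * Real.log (Real.log (Real.log θ + l)) /
          Real.log (Real.log θ + l) ^ 2 := by
          have r1 : ((1 - ε / 8) * l) ^ 2 ≤ (Real.log θ + l) ^ 2 :=
            pow_le_pow_left₀ (by positivity) e2 2
          have r2 : Real.log (Real.log θ + l) ^ 2 ≤ l3 ^ 2 := pow_le_pow_left₀ p3'.le e3' 2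
          have r3 : 0 ≤ Real.log (Real.log (Real.log θ + l)) :=
            le_trans (by positivity) e5
          gcongr

/-- the number of gaps, from runs in all intervals of length `X` -/
theorem cnt_low : ∃ x₀ : ℝ, ∀ x : ℝ, x₀ ≤ x → ∀ X H F : ℝ, 16 ≤ X → X ≤ x / 16 → H ≤ F → 0 ≤ F →
    (∀ M : ℤ, ∃ n : ℤ, M ≤ n ∧ (n : ℝ) + F ≤ M + X ∧
      ∀ k : ℕ, 1 ≤ k → (k : ℝ) ≤ F → ∃ p : ℕ, p.Prime ∧ (p : ℝ) ≤ X ^ (1 / 2 : ℝ) ∧
        (p : ℤ) ∣ n + k) →
    x ≤ X * (((range ⌊x⌋₊).filter (fun n : ℕ => (Nat.nth Nat.Prime (n + 1) : ℝ) ≤ x ∧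
        H ≤ (Nat.nth Nat.Prime (n + 1) : ℝ) - Nat.nth Nat.Prime n)).card : ℝ) *
        (64 * Real.log x) := by
  obtain ⟨x₂, hx₂⟩ := pi_low
  refine ⟨x₂, fun x hx X H F hX16 hXx hF hF0 hrun => ?_⟩
  have g1 : 1 ≤ x := by linarith
  have hx0 : 0 < x := by linarith
  set W : ℕ := ⌈X⌉₊ with hW
  have hXW : X ≤ W := Nat.le_ceil X
  have hW2 : (W : ℝ) ≤ 2 * X := by
    have := Nat.ceil_lt_add_one (show 0 ≤ X by linarith)
    linarith
  have hW0 : (0:ℝ) < W := by linarith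
  have hW1 : 1 ≤ W := by
    have : (0:ℝ) < W := hW0
    exact_mod_cast this
  set J : ℕ := ⌊x / (2 * W)⌋₊ - 1 with hJ
  have hfl1 : ((⌊x / (2 * W)⌋₊ : ℕ) : ℝ) ≤ x / (2 * W) := Nat.floor_le (by positivity)
  have hfl2 := Nat.lt_floor_add_one (x / (2 * (W:ℝ)))
  have hq4 : 4 ≤ x / (2 * W) := by
    rw [le_div_iff₀ (by positivity)]
    linarith
  have hfl3 : 1 ≤ ⌊x / (2 * W)⌋₊ := by
    apply Nat.le_floor
    push_cast
    linarith
  have hJ1 : ((J : ℕ) : ℝ) = ((⌊x / (2 * W)⌋₊ : ℕ) : ℝ) - 1 := by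
    rw [hJ, Nat.cast_sub hfl3]
    push_cast
    rfl
  have hxW : x / (2 * W) * W = x / 2 := by field_simp
  have hJW : (((J + 1) * W : ℕ) : ℝ) ≤ x / 2 := by
    push_cast
    rw [hJ1, ← hxW]
    apply mul_le_mul_of_nonneg_right _ hW0.le
    linarith
  have hJWx : ((J * W : ℕ) : ℝ) ≤ x := by
    push_cast at hJW ⊢
    have : (J : ℝ) * W ≤ (J + 1) * W := mul_le_mul_of_nonneg_right (by linarith) hW0.le
    linarith
  have hJW4 : x / 4 ≤ ((J * W : ℕ) : ℝ) := by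
    push_cast
    rw [hJ1]
    have e1 : (x / (2 * W) - 2) * W ≤ (((⌊x / (2 * W)⌋₊ : ℕ) : ℝ) - 1) * W := by
      apply mul_le_mul_of_nonneg_right _ hW0.le
      linarith
    have e2 : (x / (2 * W) - 2) * W = x / 2 - 2 * W := by rw [sub_mul, hxW]
    linarith
  have hpi := hx₂ x hx (J * W) hJW4 hJWx
  have hcount := count_aux x H X F W J g1 hX16 hXW hW1 hJW hF hF0 hrun
  set cnt : ℝ := (((range ⌊x⌋₊).filter (fun n : ℕ => (Nat.nth Nat.Prime (n + 1) : ℝ) ≤ x ∧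
        H ≤ (Nat.nth Nat.Prime (n + 1) : ℝ) - Nat.nth Nat.Prime n)).card : ℝ) with hcnt
  have hcnt0 : 0 ≤ cnt := Nat.cast_nonneg _
  have hlx : 0 < Real.log x := by
    apply Real.log_pos
    linarith
  have e1 : x / (16 * Real.log x) ≤ 4 * X * cnt := by
    refine (hpi.trans hcount).trans ?_
    refine mul_le_mul_of_nonneg_right ?_ hcnt0
    linarith
  rw [div_le_iff₀ (by positivity)] at e1
  calc x ≤ 4 * X * cnt * (16 * Real.log x) := e1
    _ = X * cnt * (64 * Real.log x) := by ring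

/-- size conditions -/
theorem ev_count2 (ε : ℝ) (hε : 0 < ε) (X₁ : ℝ) : ∃ x₀ : ℝ, ∀ x : ℝ, x₀ ≤ x →
    1 ≤ x ∧ X₁ ≤ x ^ (1 / Real.log (Real.log x) ^ 2) ∧ 16 ≤ x ^ (1 / Real.log (Real.log x) ^ 2) ∧
    16 ≤ x ^ (ε / 2) ∧ 64 * Real.log x ≤ x ^ (ε / 2 * (1 / Real.log (Real.log x) ^ 2)) ∧
    1 < Real.log (Real.log x) ∧
    Real.log (Real.log (Real.log (Real.log x))) ≤ Real.log (Real.log (Real.log x)) ^ 2 ∧
    0 < Real.log (Real.log (Real.log (Real.log x))) := by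
  have t1 := Real.tendsto_log_atTop
  have t2 := t1.comp t1
  -- `L / (log L)² → ∞`, faster than `log L`
  have hL : ∀ C : ℝ, ∀ᶠ L : ℝ in Filter.atTop, C + 2 * Real.log L ≤
      min 1 (ε / 2) * (L / Real.log L ^ 2) := by
    intro C
    have e1 : (fun x : ℝ => Real.log x ^ 3) =o[Filter.atTop] (fun x : ℝ => x) :=
      Real.isLittleO_pow_log_id_atTop
    have hm : 0 < min 1 (ε / 2) := lt_min one_pos (by positivity)
    have e2 := e1.def (show (0:ℝ) < min 1 (ε / 2) / 3 by positivity)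
    filter_upwards [e2, Filter.eventually_ge_atTop (1:ℝ), t1.eventually_ge_atTop (max 1 C)]
      with L h1 h2 h3
    have h4 : 1 ≤ Real.log L := (le_max_left _ _).trans h3
    have h5 : C ≤ Real.log L := (le_max_right _ _).trans h3
    rw [Real.norm_eq_abs, Real.norm_eq_abs, abs_of_nonneg (by positivity),
      abs_of_nonneg (by linarith)] at h1
    have h6 : 0 < Real.log L ^ 2 := by positivity
    rw [← mul_div_assoc, le_div_iff₀ h6]
    have h7 : C * Real.log L ^ 2 ≤ Real.log L * Real.log L ^ 2 :=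
      mul_le_mul_of_nonneg_right h5 h6.le
    have h8 : Real.log L * Real.log L ^ 2 = Real.log L ^ 3 := by ring
    nlinarith
  have t : Filter.Tendsto (fun x : ℝ => x ^ (ε / 2)) Filter.atTop Filter.atTop :=
    tendsto_rpow_atTop (by positivity)
  obtain ⟨x₁, h1⟩ := ev4 4
  obtain ⟨x₀, hx₀⟩ := Filter.eventually_atTop.1
    ((Filter.eventually_ge_atTop (1:ℝ)).and ((t1.eventually (hL (Real.log 64 + |X₁|))).and
      ((t.eventually_ge_atTop 16).and (Filter.eventually_ge_atTop x₁))))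
  refine ⟨x₀, fun x hx => ?_⟩
  obtain ⟨g1, g2, g3, g4⟩ := hx₀ x hx
  obtain ⟨m0, m4, m5, m3, m2, m1⟩ := h1 x g4
  set L := Real.log x with hLdef
  set l := Real.log L with hl
  set l3 := Real.log l with hl3
  set l4 := Real.log l3 with hl4
  obtain ⟨a4, a3, a2, a1⟩ := s_pos (by norm_num : (1:ℝ) ≤ 4) m4 m3 m2 m1
  have hx0 : 0 < x := by linarith
  have hX : ∀ s : ℝ, x ^ s = Real.exp (s * L) := by
    intro s
    rw [Real.rpow_def_of_pos hx0, ← hLdef, mul_comm]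
  have hl0 : 0 < l := by linarith
  have hL0 : 0 < L := by linarith
  have hq0 : 0 ≤ L / l ^ 2 := by positivity
  have k0 : 0 ≤ Real.log 64 := Real.log_nonneg (by norm_num)
  have k1 : Real.log 64 + |X₁| + 2 * l ≤ L / l ^ 2 := by
    refine g2.trans ?_
    calc min 1 (ε / 2) * (L / l ^ 2) ≤ 1 * (L / l ^ 2) :=
          mul_le_mul_of_nonneg_right (min_le_left _ _) hq0
      _ = L / l ^ 2 := one_mul _
  have k2 : Real.log 64 + |X₁| + 2 * l ≤ ε / 2 * (L / l ^ 2) :=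
    g2.trans (mul_le_mul_of_nonneg_right (min_le_right _ _) hq0)
  have habs := abs_nonneg X₁
  refine ⟨m0, ?_, ?_, g3, ?_, by linarith, by nlinarith, by linarith⟩
  · rw [hX, div_mul_eq_mul_div, one_mul]
    have e1 := Real.add_one_le_exp (L / l ^ 2)
    have e2 := le_abs_self X₁
    linarith
  · rw [hX, div_mul_eq_mul_div, one_mul]
    calc (16:ℝ) ≤ 64 := by norm_num
      _ = Real.exp (Real.log 64) := (Real.exp_log (by norm_num)).symm
      _ ≤ Real.exp (L / l ^ 2) := Real.exp_le_exp.2 (by linarith)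
  · rw [hX]
    have e1 : 64 * L = Real.exp (Real.log 64 + l) := by
      rw [Real.exp_add, Real.exp_log (by norm_num), hl, Real.exp_log hL0]
    rw [e1]
    apply Real.exp_le_exp.2
    have e2 : ε / 2 * (1 / l ^ 2) * L = ε / 2 * (L / l ^ 2) := by ring
    rw [e2]
    linarith

theorem count_exact (c₀ : ℝ) (h0 : 0 < c₀) (h1 : c₀ ≤ 1) (hrun : RunProp c₀) (ε : ℝ) (hε : 0 < ε)
    (hε1 : ε ≤ 1) : ∃ x₀ : ℝ, ∀ x : ℝ, x₀ ≤ x → ∀ H : ℝ, Real.log x ≤ H →
    H ≤ (1 - ε) * (c₀ * ff x) →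
    x ^ (1 - (1 + ε) * (H / (c₀ * ff x))) ≤
      (((range ⌊x⌋₊).filter (fun n : ℕ => (Nat.nth Nat.Prime (n + 1) : ℝ) ≤ x ∧
        H ≤ (Nat.nth Nat.Prime (n + 1) : ℝ) - Nat.nth Nat.Prime n)).card : ℝ) := by
  obtain ⟨X₁, hX₁⟩ := hrun (c₀ * (1 - ε / 8)) (1 / 2) (by apply mul_pos h0; linarith)
    (by
      have : c₀ * (1 - ε / 8) < c₀ * 1 := mul_lt_mul_of_pos_left (by linarith) h0
      linarith) (by norm_num)
  obtain ⟨x₁, hx₁⟩ := ff_theta2 (ε / 8) (by positivity) (by linarith)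
  obtain ⟨x₂, hx₂⟩ := cnt_low
  obtain ⟨x₃, hx₃⟩ := ev_count2 ε hε X₁
  refine ⟨max x₁ (max x₂ x₃), fun x hx H hHl hH => ?_⟩
  obtain ⟨g1, g2, g3, g4, g5, g6, g7, g8⟩ :=
    hx₃ x ((le_max_right _ _).trans ((le_max_right _ _).trans hx))
  have hx0 : 0 < x := by linarith
  have hl2 : 1 / Real.log (Real.log x) ^ 2 ≤ 1 := by
    rw [div_le_one (by positivity)]
    nlinarith
  have hfpos : 0 < ff x := (hx₁ x 1 ((le_max_left _ _).trans hx) hl2 le_rfl).1
  have hcf : 0 < c₀ * ff x := by positivity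
  obtain ⟨r, hr⟩ : ∃ r, r = H / (c₀ * ff x) := ⟨_, rfl⟩
  have hHr : H = r * (c₀ * ff x) := by rw [hr, div_mul_cancel₀ _ hcf.ne']
  rw [← hr]
  have hr1 : r ≤ 1 - ε := by
    rw [hr, div_le_iff₀ hcf]
    exact hH
  -- lower bound for `r`
  have hrlow : 1 / Real.log (Real.log x) ^ 2 ≤ r := by
    rw [hr, le_div_iff₀ hcf]
    refine le_trans ?_ hHl
    have hlx : 0 < Real.log x := by
      by_contra h
      push Not at h
      have h0 : 0 ≤ Real.log x := Real.log_nonneg g1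
      have : Real.log x = 0 := le_antisymm h h0
      rw [this, Real.log_zero] at g6
      norm_num at g6
    have hl3 : 0 < Real.log (Real.log (Real.log x)) := Real.log_pos g6
    have e1 : 1 / Real.log (Real.log x) ^ 2 * (c₀ * ff x) =
        c₀ * (Real.log x * (Real.log (Real.log (Real.log (Real.log x))) /
          Real.log (Real.log (Real.log x)) ^ 2)) := by
      have : Real.log (Real.log x) ≠ 0 := by linarith
      unfold ff
      field_simp
    rw [e1]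
    have e2 : Real.log (Real.log (Real.log (Real.log x))) /
          Real.log (Real.log (Real.log x)) ^ 2 ≤ 1 := by
      rw [div_le_one (by positivity)]
      exact g7
    have e3 : 0 ≤ Real.log (Real.log (Real.log (Real.log x))) /
          Real.log (Real.log (Real.log x)) ^ 2 := by positivity
    calc c₀ * (Real.log x * (Real.log (Real.log (Real.log (Real.log x))) /
          Real.log (Real.log (Real.log x)) ^ 2)) ≤ 1 * (Real.log x * 1) := by
          apply mul_le_mul h1 _ (by positivity) zero_le_one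
          exact mul_le_mul_of_nonneg_left e2 hlx.le
      _ = Real.log x := by ring
  have hr0 : 0 < r := lt_of_lt_of_le (by positivity) hrlow
  obtain ⟨θ, hθ⟩ : ∃ θ, θ = (1 + ε / 2) * r := ⟨_, rfl⟩
  have hθr : r ≤ θ := by rw [hθ]; nlinarith
  have hθ1 : θ ≤ 1 - ε / 2 := by
    rw [hθ]
    have e1 : (1 + ε / 2) * r ≤ (1 + ε / 2) * (1 - ε) :=
      mul_le_mul_of_nonneg_left hr1 (by linarith)
    nlinarith
  obtain ⟨_, hff⟩ := hx₁ x θ ((le_max_left _ _).trans hx) (hrlow.trans hθr) (by linarith)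
  obtain ⟨X, hX⟩ : ∃ X, X = x ^ θ := ⟨_, rfl⟩
  rw [← hX] at hff
  have hXlow : x ^ (1 / Real.log (Real.log x) ^ 2) ≤ X := by
    rw [hX]
    exact Real.rpow_le_rpow_of_exponent_le g1 (hrlow.trans hθr)
  have hX16 : 16 ≤ X := g3.trans hXlow
  have hXx : X ≤ x / 16 := by
    rw [le_div_iff₀ (by norm_num)]
    calc X * 16 ≤ X * x ^ (ε / 2) := mul_le_mul_of_nonneg_left g4 (by linarith)
      _ = x ^ (θ + ε / 2) := by rw [hX, ← Real.rpow_add hx0]
      _ ≤ x ^ (1:ℝ) := Real.rpow_le_rpow_of_exponent_le g1 (by linarith)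
      _ = x := Real.rpow_one x
  have hF : H ≤ c₀ * (1 - ε / 8) * ff X := by
    have e2 : c₀ * (1 - ε / 8) * ((1 - ε / 8) * (θ * ff x)) ≤ c₀ * (1 - ε / 8) * ff X := by
      apply mul_le_mul_of_nonneg_left hff
      apply mul_nonneg h0.le
      linarith
    refine le_trans ?_ e2
    rw [hHr, hθ]
    have e3 : c₀ * (1 - ε / 8) * ((1 - ε / 8) * ((1 + ε / 2) * r * ff x)) =
        ((1 - ε / 8) ^ 2 * (1 + ε / 2)) * (r * (c₀ * ff x)) := by ring
    rw [e3]
    have e4 : 1 ≤ (1 - ε / 8) ^ 2 * (1 + ε / 2) := by nlinarith [sq_nonneg ε]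
    have e5 : 0 ≤ r * (c₀ * ff x) := by positivity
    calc r * (c₀ * ff x) = 1 * (r * (c₀ * ff x)) := (one_mul _).symm
      _ ≤ _ := mul_le_mul_of_nonneg_right e4 e5
  have hF0 : 0 ≤ c₀ * (1 - ε / 8) * ff X := by
    refine le_trans ?_ hF
    exact (Real.log_nonneg g1).trans hHl
  have hmain := hx₂ x ((le_max_left _ _).trans ((le_max_right _ _).trans hx)) X H _ hX16 hXx hF hF0
    (hX₁ X (g2.trans hXlow))
  set cnt : ℝ := (((range ⌊x⌋₊).filter (fun n : ℕ => (Nat.nth Nat.Prime (n + 1) : ℝ) ≤ x ∧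
        H ≤ (Nat.nth Nat.Prime (n + 1) : ℝ) - Nat.nth Nat.Prime n)).card : ℝ) with hcnt
  have hcnt0 : 0 ≤ cnt := Nat.cast_nonneg _
  have hX0 : 0 < X := by linarith
  obtain ⟨Y, hY⟩ : ∃ Y, Y = x ^ (ε / 2 * r) := ⟨_, rfl⟩
  have hY64 : 64 * Real.log x ≤ Y := by
    refine g5.trans ?_
    rw [hY]
    exact Real.rpow_le_rpow_of_exponent_le g1 (mul_le_mul_of_nonneg_left hrlow (by positivity))
  have hY0 : 0 < Y := by rw [hY]; exact Real.rpow_pos_of_pos hx0 _
  have e1 : x ≤ cnt * (X * Y) := by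
    calc x ≤ X * cnt * (64 * Real.log x) := hmain
      _ ≤ X * cnt * Y := mul_le_mul_of_nonneg_left hY64 (mul_nonneg hX0.le hcnt0)
      _ = cnt * (X * Y) := by ring
  have e2 : X * Y = x ^ ((1 + ε) * r) := by
    rw [hX, hY, ← Real.rpow_add hx0, hθ]
    congr 1
    ring
  have e3 : x ^ (1 - (1 + ε) * r) * (X * Y) = x := by
    rw [e2, ← Real.rpow_add hx0]
    ring_nf
    exact Real.rpow_one x
  have e4 : x ^ (1 - (1 + ε) * r) * (X * Y) ≤ cnt * (X * Y) := by rw [e3]; exact e1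
  exact le_of_mul_le_mul_right e4 (by positivity)

/-- the number of the gaps `≥ H` -/
theorem fin_count2 (c₀ : ℝ) (h0 : 0 < c₀) (h1 : c₀ ≤ 1) (hrun : RunProp c₀) (ε : ℝ)
    (hε : 0 < ε) :
    ∃ x₀ : ℝ, ∀ x : ℝ, x₀ ≤ x → ∀ H : ℝ, Real.log x ≤ H → H ≤ (c₀ - ε) * ff x →
    x ^ (1 - (1 / c₀ + ε) * H / ff x) ≤
      (((range ⌊x⌋₊).filter (fun n : ℕ => (Nat.nth Nat.Prime (n + 1) : ℝ) ≤ x ∧
        H ≤ (Nat.nth Nat.Prime (n + 1) : ℝ) - Nat.nth Nat.Prime n)).card : ℝ) := by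
  obtain ⟨X₁, hX₁⟩ := ff_mono
  obtain ⟨e, he⟩ : ∃ e, e = min 1 (c₀ * ε) := ⟨_, rfl⟩
  have he0 : 0 < e := by rw [he]; exact lt_min one_pos (by positivity)
  have he1 : e ≤ 1 := by rw [he]; exact min_le_left _ _
  have he2 : e ≤ c₀ * ε := by rw [he]; exact min_le_right _ _
  obtain ⟨x₀, hx₀⟩ := count_exact c₀ h0 h1 hrun e he0 he1
  refine ⟨max 1 (max X₁ x₀), fun x hx H hHl hH => ?_⟩
  have hx1 : 1 ≤ x := (le_max_left _ _).trans hx
  have hf := (hX₁ x x ((le_max_left _ _).trans ((le_max_right _ _).trans hx)) le_rfl).1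
  have hH0 : 0 ≤ H := (Real.log_nonneg hx1).trans hHl
  refine le_trans ?_ (hx₀ x ((le_max_right _ _).trans ((le_max_right _ _).trans hx)) H hHl
    (hH.trans ?_))
  · apply Real.rpow_le_rpow_of_exponent_le hx1
    have e1 : (1 + e) * (H / (c₀ * ff x)) = (1 / c₀ + e / c₀) * H / ff x := by
      field_simp
    rw [e1]
    have e2 : e / c₀ ≤ ε := by
      rw [div_le_iff₀ h0]
      linarith
    have e3 : (1 / c₀ + e / c₀) * H / ff x ≤ (1 / c₀ + ε) * H / ff x := by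
      apply div_le_div_of_nonneg_right _ hf.le
      apply mul_le_mul_of_nonneg_right _ hH0
      linarith
    linarith
  · have h3 : c₀ * e ≤ ε := by
      have e1 : c₀ * e ≤ 1 * (c₀ * ε) := mul_le_mul h1 he2 he0.le zero_le_one
      have e2 : c₀ * ε ≤ 1 * ε := mul_le_mul_of_nonneg_right h1 hε.le
      linarith
    calc (c₀ - ε) * ff x ≤ (c₀ - c₀ * e) * ff x :=
          mul_le_mul_of_nonneg_right (by linarith) hf.le
      _ = _ := by ring

end Pool.Agent.Y831.RC
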