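import Pool.Agent.Y831.RC2.Prof

set_option autoImplicit false
set_option linter.unusedSectionVars false

/-! # The two-block covering sieve for intervals: reduction to numerical conditions -/

namespace Pool.Agent.Y831.RC

open Finset Filter Pool.Agent.H256R2.SC

open scoped Classical

/-- the sum over the small sets -/
theorem small_PS (y z v₀ : ℝ) (hz : 0 ≤ z) (hy : 1 ≤ y) :
    ∑ s : Finset (Fin (PS y z ∅).card) with
      Real.log (∏ i ∈ s, ((emb (PS y z ∅) i : ℕ) : ℝ)) < v₀,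
      ∏ i ∈ s, 1 / ((emb (PS y z ∅) i : ℕ) : ℝ) ≤
    Real.exp (∑ p ∈ (Finset.Ioc ⌊y⌋₊ ⌊Real.exp v₀⌋₊).filter Nat.Prime, (1 : ℝ) / p) := by
  set PP : Finset ℕ := PS y z ∅ with hPP
  set P : Fin PP.card → ℝ := fun i => ((emb PP i : ℕ) : ℝ) with hP
  have hP1 : ∀ i, 1 < P i := fun i => by
    have := (PS_mem hz (emb_mem PP i)).2.1
    linarith
  have hP0 : ∀ i, 0 < P i := fun i => zero_lt_one.trans (hP1 i)
  set T : Finset (Fin PP.card) := univ.filter (fun i => P i < Real.exp v₀) with hT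
  have h1 : ∑ s : Finset (Fin PP.card) with Real.log (∏ i ∈ s, P i) < v₀, ∏ i ∈ s, 1 / P i ≤
      ∑ s ∈ T.powerset, ∏ i ∈ s, 1 / P i := by
    apply Finset.sum_le_sum_of_subset_of_nonneg
    · intro s hs
      rw [Finset.mem_filter] at hs
      rw [Finset.mem_powerset]
      intro i hi
      rw [hT, Finset.mem_filter]
      refine ⟨Finset.mem_univ _, ?_⟩
      have hpos : 0 < ∏ i ∈ s, P i := Finset.prod_pos fun i _ => hP0 i
      have h2 : ∏ i ∈ s, P i < Real.exp v₀ := by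
        rw [← Real.log_lt_iff_lt_exp hpos]
        exact hs.2
      refine lt_of_le_of_lt ?_ h2
      rw [← Finset.mul_prod_erase s P hi]
      have h3 : (1 : ℝ) ≤ ∏ j ∈ s.erase i, P j := by
        calc (1 : ℝ) = ∏ _j ∈ s.erase i, (1 : ℝ) := by simp
          _ ≤ _ := Finset.prod_le_prod (fun _ _ => zero_le_one) (fun j _ => (hP1 j).le)
      calc P i = P i * 1 := (mul_one _).symm
        _ ≤ P i * ∏ j ∈ s.erase i, P j := mul_le_mul_of_nonneg_left h3 (hP0 i).le
    · intro s _ _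
      exact Finset.prod_nonneg fun i _ => by have := hP0 i; positivity
  refine h1.trans ?_
  rw [← Finset.prod_one_add]
  have h2 : ∏ i ∈ T, (1 + 1 / P i) ≤ Real.exp (∑ i ∈ T, 1 / P i) := by
    rw [Real.exp_sum]
    apply Finset.prod_le_prod
    · intro i _
      have := hP0 i
      positivity
    · intro i _
      rw [add_comm]
      exact Real.add_one_le_exp _
  refine h2.trans (Real.exp_le_exp.2 ?_)
  have h3 : ∑ i ∈ T, 1 / P i = ∑ p ∈ T.map (emb PP), (1 : ℝ) / p := by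
    rw [Finset.sum_map]
  rw [h3]
  apply Finset.sum_le_sum_of_subset_of_nonneg
  · intro p hp
    rw [Finset.mem_map] at hp
    obtain ⟨i, hi, rfl⟩ := hp
    rw [hT, Finset.mem_filter] at hi
    have h4 := PS_mem hz (emb_mem PP i)
    rw [Finset.mem_filter, Finset.mem_Ioc]
    refine ⟨⟨?_, ?_⟩, h4.1⟩
    · exact Nat.floor_lt (by linarith) |>.2 h4.2.1
    · exact Nat.le_floor hi.2.le
  · intro p _ _
    positivity

theorem profileS_PS (y z v₀ A₀ B₁ : ℝ) (hy : 2 ≤ y) (hz : 1 < z) (hv₀ : 0 < v₀)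
    (hv₀z : v₀ ≤ Real.log z) (hA₀ : 0 < A₀)
    (hB : ∑ s : Finset (Fin (PS y z ∅).card) with
      Real.log (∏ i ∈ s, ((emb (PS y z ∅) i : ℕ) : ℝ)) < v₀,
      ∏ i ∈ s, 1 / ((emb (PS y z ∅) i : ℕ) : ℝ) ≤ B₁)
    (hA : A₀ ≤ WW y / (1 + 2 / y) * Real.log (Real.log z / v₀) - B₁ / v₀)
    (hBA : B₁ ≤ A₀ * v₀) :
    ∃ h, HypS (fun i => ((emb (PS y z ∅) i : ℕ) : ℝ)) (fun i => 1 / ((emb (PS y z ∅) i : ℕ) : ℝ))
      h z (1 / A₀) v₀ := by
  have hzpos : 0 < z := by linarith
  set PP : Finset ℕ := PS y z ∅ with hPP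
  set P : Fin PP.card → ℝ := fun i => ((emb PP i : ℕ) : ℝ) with hP
  have hP1 : ∀ i, 1 < P i := fun i => by
    have := (PS_mem hzpos.le (emb_mem PP i)).2.1
    have h2 : (1:ℝ) < y := by linarith
    exact h2.trans this
  have hP0 : ∀ i, 0 < P i := fun i => zero_lt_one.trans (hP1 i)
  have hgpos : ∀ s : Finset (Fin PP.card), 0 < ∏ i ∈ s, 1 / P i := fun s =>
    Finset.prod_pos fun i _ => by have := hP0 i; positivity
  have hppos : ∀ s : Finset (Fin PP.card), 0 < ∏ i ∈ s, P i := fun s =>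
    Finset.prod_pos fun i _ => hP0 i
  have hB1 : 1 ≤ B₁ := by
    refine le_trans ?_ hB
    have e : (∏ i ∈ (∅ : Finset (Fin PP.card)), 1 / P i) = 1 := Finset.prod_empty
    rw [← e]
    refine Finset.single_le_sum (f := fun s : Finset (Fin PP.card) => ∏ i ∈ s, 1 / P i)
      (fun s _ => (hgpos s).le) ?_
    rw [Finset.mem_filter]
    exact ⟨Finset.mem_univ _, by simpa using hv₀⟩
  have hy2 : 0 < 1 + 2 / y := by positivity
  refine exists_hS P (fun i => 1 / P i) hP1 (fun i => by have := hP0 i; positivity) z A₀ v₀ B₁ hz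
    hA₀ hv₀ (hA.trans ?_) hB hBA
  set S : Finset (Finset (Fin PP.card)) := univ.filter (fun s : Finset (Fin PP.card) =>
    (s.Nonempty ∧ v₀ ≤ Real.log (∏ i ∈ s, P i)) ∧ ∏ i ∈ s, P i ≤ z) with hS
  -- summation by parts, for the scaled weights
  have hmain : (WW y / (1 + 2 / y) / B₁) * Real.log (Real.log z / v₀) - 1 / v₀ ≤
      ∑ s ∈ S, ((∏ i ∈ s, 1 / P i) / B₁) / Real.log (∏ i ∈ s, P i) := by
    refine alog_lower S (fun s => (∏ i ∈ s, 1 / P i) / B₁) (fun s => Real.log (∏ i ∈ s, P i))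
      (fun s _ => div_nonneg (hgpos s).le (by linarith)) ?_ _ v₀ (Real.log z) hv₀ hv₀z ?_
    · intro s hs
      have := (Finset.mem_filter.1 hs).2.1.2
      linarith
    · intro v hv1 hv2
      have h1 := A_sharp y z (Real.exp v) hy (Real.one_le_exp (by linarith))
        (by rw [← Real.exp_log hzpos]; exact Real.exp_le_exp.2 hv2)
      rw [Real.log_exp, ← hPP, ← Asum_enum PP (Real.exp v)] at h1
      have h2 : WW y / (1 + 2 / y) * v ≤
          1 + Asum P (fun i => 1 / ((emb PP i : ℕ) : ℝ)) (Real.exp v) := by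
        rw [div_mul_eq_mul_div, div_le_iff₀ hy2, mul_comm _ (1 + 2 / y)]
        exact h1
      have h3 : 1 + Asum P (fun i => 1 / ((emb PP i : ℕ) : ℝ)) (Real.exp v) ≤
          B₁ + ∑ s ∈ S with Real.log (∏ i ∈ s, P i) ≤ v, ∏ i ∈ s, 1 / P i := by
        have h4 : 1 + Asum P (fun i => 1 / ((emb PP i : ℕ) : ℝ)) (Real.exp v) =
            ∑ s : Finset (Fin PP.card) with Real.log (∏ i ∈ s, P i) ≤ v, ∏ i ∈ s, 1 / P i := by
          have e1 : (univ.filter (fun s : Finset (Fin PP.card) => Real.log (∏ i ∈ s, P i) ≤ v)) =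
              insert ∅ (univ.filter (fun s : Finset (Fin PP.card) =>
                s.Nonempty ∧ ∏ i ∈ s, P i ≤ Real.exp v)) := by
            ext s
            rw [Finset.mem_insert, Finset.mem_filter, Finset.mem_filter,
              Real.log_le_iff_le_exp (hppos s)]
            constructor
            · intro hs
              rcases Finset.eq_empty_or_nonempty s with he | he
              · exact Or.inl he
              · exact Or.inr ⟨hs.1, he, hs.2⟩
            · rintro (rfl | hs)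
              · refine ⟨Finset.mem_univ _, ?_⟩
                rw [Finset.prod_empty]
                exact Real.one_le_exp (by linarith)
              · exact ⟨hs.1, hs.2.2⟩
          rw [e1, Finset.sum_insert (by simp), Finset.prod_empty]
          rfl
        rw [h4, ← Finset.sum_filter_add_sum_filter_not _
          (fun s : Finset (Fin PP.card) => Real.log (∏ i ∈ s, P i) < v₀)]
        apply add_le_add
        · refine le_trans ?_ hB
          apply Finset.sum_le_sum_of_subset_of_nonneg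
          · intro s hs
            rw [Finset.mem_filter, Finset.mem_filter] at hs
            rw [Finset.mem_filter]
            exact ⟨Finset.mem_univ _, hs.2⟩
          · intro s _ _
            exact (hgpos s).le
        · apply Finset.sum_le_sum_of_subset_of_nonneg
          · intro s hs
            rw [Finset.mem_filter, Finset.mem_filter] at hs
            rw [Finset.mem_filter, hS, Finset.mem_filter]
            have h5 := not_lt.1 hs.2
            refine ⟨⟨Finset.mem_univ _, ⟨?_, h5⟩, ?_⟩, hs.1.2⟩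
            · rw [Finset.nonempty_iff_ne_empty]
              rintro rfl
              simp at h5
              linarith
            · rw [← Real.log_le_log_iff (hppos s) hzpos]
              exact hs.1.2.trans hv2
          · intro s _ _
            exact (hgpos s).le
      have h5 : WW y / (1 + 2 / y) * v - B₁ ≤
          ∑ s ∈ S with Real.log (∏ i ∈ s, P i) ≤ v, ∏ i ∈ s, 1 / P i := by linarith
      rw [← Finset.sum_div, le_div_iff₀ (by linarith)]
      refine le_trans (le_of_eq ?_) h5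
      field_simp
  have h6 : WW y / (1 + 2 / y) * Real.log (Real.log z / v₀) - B₁ / v₀ =
      ((WW y / (1 + 2 / y) / B₁) * Real.log (Real.log z / v₀) - 1 / v₀) * B₁ := by
    field_simp
  rw [h6]
  refine (mul_le_mul_of_nonneg_right hmain (by linarith)).trans (le_of_eq ?_)
  rw [Finset.sum_mul]
  refine Finset.sum_congr rfl fun s _ => ?_
  have : B₁ ≠ 0 := by linarith
  field_simp

/-- the density of the first block -/
theorem rho_PS (w y : ℝ) (hw : 2 ≤ w) (hwy : w ≤ y) :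
    rho (fun i => 1 / ((emb (PS w y ∅) i : ℕ) : ℝ)) 1 = WW y / WW w := by
  have h1 : rho (fun i => 1 / ((emb (PS w y ∅) i : ℕ) : ℝ)) 1 =
      ∏ p ∈ PS w y ∅, (1 - 1 / (p : ℝ)) := by
    unfold rho
    have h2 : PS w y ∅ = univ.map (emb (PS w y ∅)) := by
      ext p
      rw [Finset.mem_map]
      constructor
      · intro hp
        obtain ⟨i, hi⟩ := emb_surj (PS w y ∅) hp
        exact ⟨i, Finset.mem_univ _, hi⟩
      · rintro ⟨i, _, rfl⟩
        exact emb_mem (PS w y ∅) i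
    conv_rhs => rw [h2]
    rw [Finset.prod_map]
    push_cast
    simp
  have h3 : WW y = WW w * ∏ p ∈ PS w y ∅, (1 - 1 / (p : ℝ)) := by
    unfold WW
    rw [← Finset.prod_union]
    · congr 1
      ext p
      unfold PS
      simp only [Finset.mem_union, Finset.mem_filter, Finset.mem_Icc, Finset.notMem_empty,
        not_false_eq_true, and_true]
      constructor
      · rintro ⟨⟨h1, h2⟩, h3⟩
        by_cases h4 : p ≤ ⌊w⌋₊
        · exact Or.inl ⟨⟨h1, h4⟩, h3⟩
        · right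
          refine ⟨⟨h1, h2⟩, h3, ?_⟩
          exact (Nat.floor_lt (by linarith)).1 (not_le.1 h4)
      · rintro (⟨⟨h1, h2⟩, h3⟩ | ⟨⟨h1, h2⟩, h3, h4⟩)
        · exact ⟨⟨h1, h2.trans (Nat.floor_le_floor hwy)⟩, h3⟩
        · exact ⟨⟨h1, h2⟩, h3⟩
    · rw [Finset.disjoint_left]
      intro p hp hp'
      unfold PS at hp'
      rw [Finset.mem_filter, Finset.mem_Icc] at hp
      rw [Finset.mem_filter] at hp'
      have h4 := hp'.2.2.1
      have h5 : (p : ℝ) ≤ w := le_trans (by exact_mod_cast hp.1.2) (Nat.floor_le (by linarith))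
      linarith
  rw [h1, h3]
  have := WW_pos w
  field_simp

theorem nu_append {n₁ n₂ : ℕ} {κ : Type} [Fintype κ] [DecidableEq κ] (g₁ : Fin n₁ → ℝ)
    (g₂ : Fin n₂ → ℝ) (D : Col (n₁ + n₂) κ) :
    nu (Fin.append g₁ g₂) D = nu g₁ (fstc D) * nu g₂ (sndc D) := by
  unfold nu
  rw [Fin.prod_univ_add]
  simp only [Fin.append_left, Fin.append_right]
  rfl

theorem event_two {κ : Type} [Fintype κ] [DecidableEq κ] {PP₁ PP₂ : Finset ℕ}
    (h₁ : ∀ p ∈ PP₁, p.Prime) (h₂ : ∀ p ∈ PP₂, p.Prime) (hd : Disjoint PP₁ PP₂)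
    {res : ℕ → κ → ℤ}
    (hi₁ : ∀ p ∈ PP₁, ∀ k l, k ≠ l → ¬ ((p : ℤ) ∣ res p k - res p l))
    (hi₂ : ∀ p ∈ PP₂, ∀ k l, k ≠ l → ¬ ((p : ℤ) ∣ res p k - res p l))
    (D : Col (PP₁.card + PP₂.card) κ) :
    ∃ r : ℤ, ∀ a : ℤ, (∀ i, D i ≠ none →
      (Fin.append (colr PP₁ res a) (colr PP₂ res a) : Col (PP₁.card + PP₂.card) κ) i = D i) ↔
      ((qn PP₁ (fstc D) * qn PP₂ (sndc D) : ℕ) : ℤ) ∣ a - r := by
  obtain ⟨r₁, hr₁⟩ := event_iff h₁ hi₁ (fstc D)
  obtain ⟨r₂, hr₂⟩ := event_iff h₂ hi₂ (sndc D)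
  have hcop : Nat.Coprime (qn PP₁ (fstc D)) (qn PP₂ (sndc D)) := by
    unfold qn
    apply Nat.Coprime.prod_left
    intro i _
    apply Nat.Coprime.prod_right
    intro j _
    rw [Nat.coprime_primes (h₁ _ (emb_mem PP₁ i)) (h₂ _ (emb_mem PP₂ j))]
    intro he
    exact Finset.disjoint_left.1 hd (emb_mem PP₁ i) (he ▸ emb_mem PP₂ j)
  have hcop' : IsCoprime ((qn PP₁ (fstc D) : ℕ) : ℤ) ((qn PP₂ (sndc D) : ℕ) : ℤ) :=
    Nat.isCoprime_iff_coprime.2 hcop
  obtain ⟨x, y, hxy⟩ := hcop'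
  refine ⟨r₂ * x * (qn PP₁ (fstc D) : ℕ) + r₁ * y * (qn PP₂ (sndc D) : ℕ), fun a => ?_⟩
  set q₁ : ℤ := ((qn PP₁ (fstc D) : ℕ) : ℤ) with hq₁
  set q₂ : ℤ := ((qn PP₂ (sndc D) : ℕ) : ℤ) with hq₂
  have e1 : q₁ ∣ (r₂ * x * q₁ + r₁ * y * q₂) - r₁ := by
    refine ⟨(r₂ - r₁) * x, ?_⟩
    have : y * q₂ = 1 - x * q₁ := by linarith
    calc (r₂ * x * q₁ + r₁ * y * q₂) - r₁ = r₂ * x * q₁ + r₁ * (y * q₂) - r₁ := by ring
      _ = _ := by rw [this]; ring
  have e2 : q₂ ∣ (r₂ * x * q₁ + r₁ * y * q₂) - r₂ := by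
    refine ⟨(r₁ - r₂) * y, ?_⟩
    have : x * q₁ = 1 - y * q₂ := by linarith
    calc (r₂ * x * q₁ + r₁ * y * q₂) - r₂ = r₂ * (x * q₁) + r₁ * y * q₂ - r₂ := by ring
      _ = _ := by rw [this]; ring
  have hsplit : (∀ i, D i ≠ none →
      (Fin.append (colr PP₁ res a) (colr PP₂ res a) : Col (PP₁.card + PP₂.card) κ) i = D i) ↔
      (∀ i, fstc D i ≠ none → colr PP₁ res a i = fstc D i) ∧
      (∀ i, sndc D i ≠ none → colr PP₂ res a i = sndc D i) := by
    constructor
    · intro h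
      refine ⟨fun i hi => ?_, fun i hi => ?_⟩
      · have := h (Fin.castAdd PP₂.card i) hi
        rwa [Fin.append_left] at this
      · have := h (Fin.natAdd PP₁.card i) hi
        rwa [Fin.append_right] at this
    · rintro ⟨ha, hb⟩ i
      refine Fin.addCases (fun j hj => ?_) (fun j hj => ?_) i
      · rw [Fin.append_left]; exact ha j hj
      · rw [Fin.append_right]; exact hb j hj
  rw [hsplit, hr₁ a, hr₂ a]
  push_cast
  rw [← hq₁, ← hq₂]
  constructor
  · rintro ⟨ha, hb⟩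
    apply IsCoprime.mul_dvd ⟨x, y, hxy⟩
    · have := dvd_sub ha e1
      have e : a - r₁ - (r₂ * x * q₁ + r₁ * y * q₂ - r₁) = a - (r₂ * x * q₁ + r₁ * y * q₂) := by ring
      rwa [e] at this
    · have := dvd_sub hb e2
      have e : a - r₂ - (r₂ * x * q₁ + r₁ * y * q₂ - r₂) = a - (r₂ * x * q₁ + r₁ * y * q₂) := by ring
      rwa [e] at this
  · intro h
    constructor
    · have := dvd_add (dvd_trans (dvd_mul_right q₁ q₂) h) e1
      have e : a - (r₂ * x * q₁ + r₁ * y * q₂) + (r₂ * x * q₁ + r₁ * y * q₂ - r₁) = a - r₁ := by ring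
      rwa [e] at this
    · have := dvd_add (dvd_trans (dvd_mul_left q₂ q₁) h) e2
      have e : a - (r₂ * x * q₁ + r₁ * y * q₂) + (r₂ * x * q₁ + r₁ * y * q₂ - r₂) = a - r₂ := by ring
      rwa [e] at this

end Pool.Agent.Y831.RC
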