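import Pool.Agent.H256R2.SC.J

set_option autoImplicit false
set_option linter.unusedSectionVars false

/-! # The first block of primes: truncated inclusion-exclusion for a set of colours -/

namespace Pool.Agent.Y831.RC

open Finset Pool.Agent.H256R2.SC

variable {n : ℕ} {κ : Type} [Fintype κ] [DecidableEq κ]

/-- `some ()` on the colours in `K` -/
def pk (K : Finset κ) (c : Option κ) : Option Unit :=
  match c with
  | none => none
  | some k => if k ∈ K then some () else none

/-- truncated inclusion-exclusion for the event that no colour of `K` occurs -/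
noncomputable def RB (M : ℕ) (K : Finset κ) (x : Col n κ) : ℝ :=
  SS M () (fun i => pk K (x i))

theorem RB_nonneg (M : ℕ) (hM : Even M) (K : Finset κ) (x : Col n κ) : 0 ≤ RB M K x := by
  refine le_trans ?_ (SS_lower M hM () (fun i => pk K (x i)))
  split_ifs <;> norm_num

theorem RB_sq_lower (M : ℕ) (hM : Even M) (K : Finset κ) (x : Col n κ) :
    (∏ i, if pk K (x i) = some () then (0 : ℝ) else 1) ≤ (RB M K x) ^ 2 := by
  have h := SS_lower M hM () (fun i => pk K (x i))
  by_cases hx : ∀ i, pk K (x i) ≠ some ()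
  · rw [if_pos hx] at h
    have h1 : ∏ i, (if pk K (x i) = some () then (0 : ℝ) else 1) = 1 := by
      apply Finset.prod_eq_one
      intro i _
      rw [if_neg (hx i)]
    rw [h1]
    unfold RB
    nlinarith
  · push Not at hx
    obtain ⟨i, hi⟩ := hx
    rw [Finset.prod_eq_zero (Finset.mem_univ i) (by rw [if_pos hi])]
    exact sq_nonneg _

theorem RB_sq_upper (M : ℕ) (hM : Even M) (K : Finset κ) (x : Col n κ) :
    (RB M K x) ^ 2 ≤ (∏ i, if pk K (x i) = some () then (0 : ℝ) else 1) +
      (1 / 9) ^ M * ∏ i, (if pk K (x i) = some () then (16 : ℝ) else 1) := by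
  have h := SS_upper M hM 3 (by norm_num) () (fun i => pk K (x i))
  have h0 := RB_nonneg M hM K x
  have hp : (0 : ℝ) ≤ (1 / 9) ^ M * ∏ i, (if pk K (x i) = some () then (16 : ℝ) else 1) := by
    apply mul_nonneg (by positivity)
    apply Finset.prod_nonneg
    intro i _
    split_ifs <;> norm_num
  by_cases hx : ∀ i, pk K (x i) ≠ some ()
  · have h1 : ∏ i, (if pk K (x i) = some () then (0 : ℝ) else 1) = 1 := by
      apply Finset.prod_eq_one
      intro i _
      rw [if_neg (hx i)]
    have h2 : RB M K x = 1 := by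
      unfold RB
      exact SS_zero M () _ ((no_hits_iff () (fun i => pk K (x i))).1 hx)
    rw [h1, h2]
    linarith
  · rw [if_neg hx, zero_add] at h
    push Not at hx
    obtain ⟨i, hi⟩ := hx
    rw [Finset.prod_eq_zero (Finset.mem_univ i) (by rw [if_pos hi]), zero_add]
    have h3 : (RB M K x) ^ 2 ≤
        ((1 / 3) ^ M * ∏ i, (if pk K (x i) = some () then (1 + 3 : ℝ) else 1)) ^ 2 :=
      pow_le_pow_left₀ h0 h 2
    refine h3.trans (le_of_eq ?_)
    rw [mul_pow, ← pow_mul, mul_comm M 2, pow_mul, ← Finset.prod_pow]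
    congr 1
    · norm_num
    · refine Finset.prod_congr rfl fun i _ => ?_
      split_ifs <;> norm_num

/-- expectation of a product -/
theorem EE_prod (g : Fin n → ℝ) (F : Fin n → Option κ → ℝ) :
    EE g (fun x => ∏ i, F i (x i)) = ∏ i, ∑ c, wt (g i) c * F i c := by
  unfold EE
  rw [Finset.prod_univ_sum, Fintype.piFinset_univ]
  refine Finset.sum_congr rfl fun x _ => ?_
  rw [Finset.prod_mul_distrib]

theorem sum_wt (g : ℝ) (A : Option κ → ℝ) (h : A none = 1) :
    ∑ c, wt g c * A c = 1 + g * ∑ k, (A (some k) - 1) := by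
  rw [Fintype.sum_option, h, Finset.sum_sub_distrib, Finset.sum_const, Finset.card_univ,
    nsmul_eq_mul]
  simp only [wt]
  rw [← Finset.mul_sum]
  ring

/-- the weights of the first block -/
noncomputable def rho (g : Fin n → ℝ) (m : ℕ) : ℝ := ∏ i, (1 - (m : ℝ) * g i)

section
variable {g : Fin n → ℝ} (hg : ∀ i, 0 ≤ g i) {u : ℕ} (hu : ∀ i, (u : ℝ) * g i ≤ 1 / 2)
include hg hu

theorem rho_fac {m : ℕ} (hm : m ≤ u) (i : Fin n) : (m : ℝ) * g i ≤ 1 / 2 :=
  (mul_le_mul_of_nonneg_right (by exact_mod_cast hm) (hg i)).trans (hu i)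

theorem rho_nonneg {m : ℕ} (hm : m ≤ u) : 0 ≤ rho g m :=
  Finset.prod_nonneg fun i _ => by linarith [rho_fac hg hu hm i]

theorem rho_pos {m : ℕ} (hm : m ≤ u) : 0 < rho g m :=
  Finset.prod_pos fun i _ => by linarith [rho_fac hg hu hm i]

theorem rho_anti {m m' : ℕ} (hm : m ≤ m') (hm' : m' ≤ u) : rho g m' ≤ rho g m := by
  unfold rho
  apply Finset.prod_le_prod
  · intro i _
    linarith [rho_fac hg hu hm' i]
  · intro i _
    have : (m : ℝ) * g i ≤ (m' : ℝ) * g i :=
      mul_le_mul_of_nonneg_right (by exact_mod_cast hm) (hg i)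
    linarith

theorem rho_step {m : ℕ} (hm : m + 1 ≤ u) : rho g (m + 1) ≤ rho g 1 * rho g m := by
  unfold rho
  rw [← Finset.prod_mul_distrib]
  apply Finset.prod_le_prod
  · intro i _
    linarith [rho_fac hg hu hm i]
  · intro i _
    have h0 := hg i
    have h1 : 0 ≤ (m : ℝ) * g i * g i := by positivity
    push_cast
    nlinarith

theorem rho_lower {m : ℕ} (hm : m ≤ u) : Real.exp (-(2 * m * ∑ i, g i)) ≤ rho g m := by
  unfold rho
  rw [Finset.mul_sum, ← Finset.sum_neg_distrib, Real.exp_sum]
  apply Finset.prod_le_prod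
  · intro i _
    exact (Real.exp_pos _).le
  · intro i _
    have h1 := rho_fac hg hu hm i
    have h2 : 0 ≤ (m : ℝ) * g i := mul_nonneg (Nat.cast_nonneg _) (hg i)
    have h3 : Real.exp (-(2 * ((m : ℝ) * g i))) ≤ 1 - (m : ℝ) * g i := by
      set x := (m : ℝ) * g i with hx
      have e1 : 1 + 2 * x ≤ Real.exp (2 * x) := by
        have := Real.add_one_le_exp (2 * x)
        linarith
      rw [Real.exp_neg]
      have e2 : (Real.exp (2 * x))⁻¹ ≤ (1 + 2 * x)⁻¹ := by
        apply inv_anti₀ (by linarith) e1
      refine e2.trans ?_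
      rw [inv_le_comm₀ (by linarith) (by linarith)]
      rw [← one_div, div_le_iff₀ (by linarith)]
      nlinarith
    have h4 : -(2 * (m : ℝ) * g i) = -(2 * ((m : ℝ) * g i)) := by ring
    rw [h4]
    exact h3

end

theorem rho_zero (g : Fin n → ℝ) : rho g 0 = 1 := by
  unfold rho
  simp

theorem EE_no_hit (g : Fin n → ℝ) (K : Finset κ) :
    EE g (fun x : Col n κ => ∏ i, if pk K (x i) = some () then (0 : ℝ) else 1) = rho g K.card := by
  rw [EE_prod g (fun _ c => if pk K c = some () then (0 : ℝ) else 1)]
  unfold rho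
  refine Finset.prod_congr rfl fun i _ => ?_
  rw [sum_wt (g i) (fun c => if pk K c = some () then (0 : ℝ) else 1) (by simp [pk])]
  have h1 : ∀ k : κ, (if pk K (some k) = some () then (0 : ℝ) else 1) - 1 =
      if k ∈ K then -1 else 0 := by
    intro k
    by_cases hk : k ∈ K
    · simp [pk, hk]
    · simp [pk, hk]
  simp_rw [h1]
  rw [Finset.sum_ite, Finset.sum_const_zero, add_zero, Finset.sum_const, Finset.filter_mem_eq_inter,
    Finset.univ_inter, nsmul_eq_mul]
  ring

/-- second moment from below -/
theorem EE_RB_lower {g : Fin n → ℝ} (hw : ∀ i (c : Option κ), 0 ≤ wt (g i) c) (M : ℕ)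
    (hM : Even M) (K : Finset κ) :
    rho g K.card ≤ EE g (fun x : Col n κ => (RB M K x) ^ 2) := by
  rw [← EE_no_hit]
  exact EE_mono hw fun x => RB_sq_lower M hM K x

/-- weighted second moment from above -/
theorem EE_RB_upper {g : Fin n → ℝ} (hg : ∀ i, 0 ≤ g i)
    (hw : ∀ i (c : Option κ), 0 ≤ wt (g i) c)
    (hu : ∀ i, (Fintype.card κ : ℝ) * g i ≤ 1 / 2) (M : ℕ)
    (hM : Even M) (K : Finset κ) (t : ℝ) (ht : 0 ≤ t) (k₀ : κ)
    (hMK : (17 * (K.card : ℝ) + 16 * t) * ∑ i, g i ≤ 2 * M) :
    EE g (fun x : Col n κ => (∏ i, if x i = some k₀ then 1 + t else 1) * (RB M K x) ^ 2) ≤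
      2 * Real.exp (2 * t * ∑ i, g i) * rho g K.card := by
  have hKu : K.card ≤ Fintype.card κ := Finset.card_le_univ K
  have hG : 0 ≤ ∑ i, g i := Finset.sum_nonneg fun i _ => hg i
  have hρ := rho_pos hg hu hKu
  -- pointwise bound
  have h1 : EE g (fun x : Col n κ => (∏ i, if x i = some k₀ then 1 + t else 1) * (RB M K x) ^ 2) ≤
      EE g (fun x : Col n κ => (∏ i, (if x i = some k₀ then 1 + t else 1) *
        (if pk K (x i) = some () then (0 : ℝ) else 1)) +
        (1 / 9) ^ M * ∏ i, ((if x i = some k₀ then 1 + t else 1) *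
          (if pk K (x i) = some () then (16 : ℝ) else 1))) := by
    apply EE_mono hw
    intro x
    have h2 : 0 ≤ ∏ i, (if x i = some k₀ then 1 + t else 1) := by
      apply Finset.prod_nonneg
      intro i _
      split_ifs <;> linarith
    refine (mul_le_mul_of_nonneg_left (RB_sq_upper M hM K x) h2).trans (le_of_eq ?_)
    rw [Finset.prod_mul_distrib, Finset.prod_mul_distrib]
    ring
  refine h1.trans ?_
  rw [EE_add, EE_smul, EE_prod g (fun _ c => (if c = some k₀ then 1 + t else 1) *
        (if pk K c = some () then (0 : ℝ) else 1)),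
    EE_prod g (fun _ c => (if c = some k₀ then 1 + t else 1) *
        (if pk K c = some () then (16 : ℝ) else 1))]
  have hsum : ∀ (a : κ → ℝ) , (∀ k, a k ≤ (if k ∈ K then -1 else 0) + (if k = k₀ then t else 0)) →
      ∑ k, a k ≤ -(K.card : ℝ) + t := by
    intro a ha
    refine (Finset.sum_le_sum fun k _ => ha k).trans (le_of_eq ?_)
    rw [Finset.sum_add_distrib, Finset.sum_ite_eq' univ k₀ (fun _ => t), if_pos (mem_univ _),
      Finset.sum_ite, Finset.sum_const_zero, add_zero, Finset.sum_const,
      Finset.filter_mem_eq_inter, Finset.univ_inter, nsmul_eq_mul]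
    ring
  have hsum2 : ∀ (a : κ → ℝ) , (∀ k, a k ≤ (if k ∈ K then 15 else 0) +
      (if k = k₀ then 16 * t else 0)) → ∑ k, a k ≤ 15 * (K.card : ℝ) + 16 * t := by
    intro a ha
    refine (Finset.sum_le_sum fun k _ => ha k).trans (le_of_eq ?_)
    rw [Finset.sum_add_distrib, Finset.sum_ite_eq' univ k₀ (fun _ => 16 * t), if_pos (mem_univ _),
      Finset.sum_ite, Finset.sum_const_zero, add_zero, Finset.sum_const,
      Finset.filter_mem_eq_inter, Finset.univ_inter, nsmul_eq_mul]
    ring
  -- first part
  have hA : ∏ i, ∑ c : Option κ, wt (g i) c * ((if c = some k₀ then 1 + t else 1) *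
        (if pk K c = some () then (0 : ℝ) else 1)) ≤
      Real.exp (2 * t * ∑ i, g i) * rho g K.card := by
    rw [Finset.mul_sum, Real.exp_sum]
    unfold rho
    rw [← Finset.prod_mul_distrib]
    apply Finset.prod_le_prod
    · intro i _
      apply Finset.sum_nonneg
      intro c _
      apply mul_nonneg (hw i c)
      apply mul_nonneg
      · split_ifs <;> linarith
      · split_ifs <;> norm_num
    · intro i _
      rw [sum_wt (g i) (fun c => (if c = some k₀ then 1 + t else 1) *
        (if pk K c = some () then (0 : ℝ) else 1)) (by simp [pk])]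
      have h3 : ∑ k : κ, ((if (some k : Option κ) = some k₀ then 1 + t else 1) *
          (if pk K (some k) = some () then (0 : ℝ) else 1) - 1) ≤ -(K.card : ℝ) + t := by
        apply hsum
        intro k
        by_cases hk : k ∈ K
        · by_cases hk0 : k = k₀
          · subst hk0
            simp [pk, hk]
            try linarith
          · simp [pk, hk, hk0]
        · by_cases hk0 : k = k₀
          · subst hk0
            simp [pk, hk]
          · simp [pk, hk, hk0]
      have h4 := mul_le_mul_of_nonneg_left h3 (hg i)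
      have h5 := rho_fac hg hu hKu i
      have h6 : 1 + 2 * t * g i ≤ Real.exp (2 * t * g i) := by
        have := Real.add_one_le_exp (2 * t * g i)
        linarith
      have h7 : 0 ≤ 1 - (K.card : ℝ) * g i := by linarith
      have h8 : (1 + 2 * t * g i) * (1 - (K.card : ℝ) * g i) ≤
          Real.exp (2 * t * g i) * (1 - (K.card : ℝ) * g i) := mul_le_mul_of_nonneg_right h6 h7
      have h9 : 0 ≤ t * g i * (1 - 2 * ((K.card : ℝ) * g i)) := by
        apply mul_nonneg (mul_nonneg ht (hg i))
        linarith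
      nlinarith
  -- second part
  have hB : ∏ i, ∑ c : Option κ, wt (g i) c * ((if c = some k₀ then 1 + t else 1) *
        (if pk K c = some () then (16 : ℝ) else 1)) ≤
      Real.exp ((15 * (K.card : ℝ) + 16 * t) * ∑ i, g i) := by
    rw [Finset.mul_sum, Real.exp_sum]
    apply Finset.prod_le_prod
    · intro i _
      apply Finset.sum_nonneg
      intro c _
      apply mul_nonneg (hw i c)
      apply mul_nonneg
      · split_ifs <;> linarith
      · split_ifs <;> norm_num
    · intro i _
      rw [sum_wt (g i) (fun c => (if c = some k₀ then 1 + t else 1) *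
        (if pk K c = some () then (16 : ℝ) else 1)) (by simp [pk])]
      have h3 : ∑ k : κ, ((if (some k : Option κ) = some k₀ then 1 + t else 1) *
          (if pk K (some k) = some () then (16 : ℝ) else 1) - 1) ≤
          15 * (K.card : ℝ) + 16 * t := by
        apply hsum2
        intro k
        by_cases hk : k ∈ K
        · by_cases hk0 : k = k₀
          · subst hk0
            simp [pk, hk]
            try linarith
          · simp [pk, hk, hk0]
            try linarith
        · by_cases hk0 : k = k₀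
          · subst hk0
            simp [pk, hk]
            try linarith
          · simp [pk, hk, hk0]
      have h4 := mul_le_mul_of_nonneg_left h3 (hg i)
      have h6 := Real.add_one_le_exp ((15 * (K.card : ℝ) + 16 * t) * g i)
      nlinarith
  have hC : (1 / 9 : ℝ) ^ M * Real.exp ((15 * (K.card : ℝ) + 16 * t) * ∑ i, g i) ≤
      rho g K.card := by
    refine le_trans ?_ (rho_lower hg hu hKu)
    have e1 : (1 / 9 : ℝ) ^ M ≤ Real.exp (-(2 * M)) := by
      have e2 : (1 / 9 : ℝ) ≤ Real.exp (-2) := by
        rw [Real.exp_neg, one_div]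
        apply inv_anti₀ (Real.exp_pos _)
        have h1 : Real.exp 2 = Real.exp 1 ^ 2 := by rw [← Real.exp_nat_mul]; norm_num
        rw [h1]
        have := Real.exp_one_lt_d9
        have h0 := Real.exp_pos 1
        nlinarith
      calc (1 / 9 : ℝ) ^ M ≤ (Real.exp (-2)) ^ M := pow_le_pow_left₀ (by norm_num) e2 M
        _ = Real.exp (-(2 * M)) := by
          rw [← Real.exp_nat_mul]
          congr 1
          ring
    calc (1 / 9 : ℝ) ^ M * Real.exp ((15 * (K.card : ℝ) + 16 * t) * ∑ i, g i)
        ≤ Real.exp (-(2 * M)) * Real.exp ((15 * (K.card : ℝ) + 16 * t) * ∑ i, g i) :=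
          mul_le_mul_of_nonneg_right e1 (Real.exp_pos _).le
      _ = Real.exp (-(2 * M) + (15 * (K.card : ℝ) + 16 * t) * ∑ i, g i) := by
          rw [← Real.exp_add]
      _ ≤ _ := by
          apply Real.exp_le_exp.2
          nlinarith
  have hD : rho g K.card ≤ Real.exp (2 * t * ∑ i, g i) * rho g K.card := by
    have : 1 ≤ Real.exp (2 * t * ∑ i, g i) := Real.one_le_exp (by positivity)
    nlinarith
  have hE := mul_le_mul_of_nonneg_left hB (show (0:ℝ) ≤ (1 / 9) ^ M by positivity)
  linarith

end Pool.Agent.Y831.RC
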