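import Pool.Agent.Y831.RC2.Rho

set_option autoImplicit false
set_option linter.unusedSectionVars false

/-! # The abstract covering sieve with sharp constants: two blocks of primes -/

namespace Pool.Agent.Y831.RC

open Finset Pool.Agent.H256R2.SC

variable {n n₁ n₂ : ℕ} {κ : Type} [Fintype κ] [DecidableEq κ]

/-- the colours of an assignment -/
def cols (D : Col n κ) : Finset κ := univ.filter (fun k => (fib D k).Nonempty)

theorem mem_cols {D : Col n κ} {k : κ} : k ∈ cols D ↔ (fib D k).Nonempty := by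
  simp [cols]

theorem cols_er_sub (k : κ) (D : Col n κ) : cols (er k D) ⊆ cols D := by
  intro l hl
  rw [mem_cols] at hl ⊢
  by_cases h : l = k
  · subst h
    rw [E_fib_er_self] at hl
    exact absurd hl (by simp)
  · rwa [E_fib_er_ne h] at hl

theorem cols_er_card {k : κ} {D : Col n κ} (h : (fib D k).Nonempty) :
    (cols D).card = (cols (er k D)).card + 1 := by
  have h1 : cols D = insert k (cols (er k D)) := by
    ext l
    rw [Finset.mem_insert, mem_cols, mem_cols]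
    by_cases hl : l = k
    · subst hl
      simp [h]
    · rw [E_fib_er_ne hl]
      simp [hl]
  have h2 : k ∉ cols (er k D) := by
    rw [mem_cols, E_fib_er_self]
    simp
  rw [h1, Finset.card_insert_of_notMem h2]

/-- the weight of an assignment -/
noncomputable def om (g₁ : Fin n₁ → ℝ) (D : Col n κ) : ℝ := rho g₁ (cols D).card

section
variable {g₁ : Fin n₁ → ℝ} (hg : ∀ i, 0 ≤ g₁ i) (hu : ∀ i, (Fintype.card κ : ℝ) * g₁ i ≤ 1 / 2)
include hg hu

theorem om_nonneg (D : Col n κ) : 0 ≤ om g₁ D := rho_nonneg hg hu (Finset.card_le_univ _)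

theorem om_anti (D : Col n κ) (k : κ) : om g₁ D ≤ om g₁ (er k D) :=
  rho_anti hg hu (Finset.card_le_card (cols_er_sub k D)) (Finset.card_le_univ _)

theorem om_step (D : Col n κ) (k : κ) (h : (fib D k).Nonempty) :
    om g₁ D ≤ rho g₁ 1 * om g₁ (er k D) := by
  unfold om
  rw [cols_er_card h]
  apply rho_step hg hu
  rw [← cols_er_card h]
  exact Finset.card_le_univ _

end

theorem card_cols {p g : Fin n → ℝ} {h : Finset (Fin n) → ℝ} {z K v₀ : ℝ}
    (H : HypS p g h z K v₀) (Q : ℝ) (D : Col n κ) (hD : yT p h Q D ≠ 0) :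
    ((cols D).card : ℝ) ≤ Real.log Q / v₀ := by
  unfold yT at hD
  have hq : qq p D ≤ Q := by
    by_contra hc
    rw [if_neg hc] at hD
    exact hD rfl
  rw [if_pos hq] at hD
  have hq1 := H.qq_pos D
  rw [le_div_iff₀ H.v0]
  refine le_trans ?_ (Real.log_le_log (by linarith) hq)
  rw [E_qq, Real.log_prod]
  · have h1 : ∀ k ∈ cols D, v₀ ≤ Real.log (∏ i ∈ fib D k, p i) := by
      intro k hk
      apply H.low
      intro h0
      apply hD
      unfold yy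
      apply Finset.prod_eq_zero (Finset.mem_univ k)
      rw [mem_cols] at hk
      unfold al
      rw [if_neg hk.ne_empty, h0]
      simp
    calc ((cols D).card : ℝ) * v₀ = ∑ _k ∈ cols D, v₀ := by rw [Finset.sum_const, nsmul_eq_mul]
      _ ≤ ∑ k ∈ cols D, Real.log (∏ i ∈ fib D k, p i) := Finset.sum_le_sum h1
      _ ≤ ∑ k, Real.log (∏ i ∈ fib D k, p i) := by
          apply Finset.sum_le_sum_of_subset_of_nonneg (Finset.subset_univ _)
          intro k _ _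
          exact Real.log_nonneg (H.prod_ge_one _)
  · intro k _
    have := H.prod_ge_one (fib D k)
    linarith

theorem Lw_psi (g : Fin n → ℝ) (hg0 : ∀ i, 0 ≤ g i) (hg1 : ∀ i, g i ≤ 1) (D : Col n κ) :
    Lw (2 ^ (univ.filter (fun i => D i ≠ none)).card) (fun x => psi g D x) :=
  ⟨fun E => ∏ i, cf (g i) (D i) (E i), fun x => psi_eq g D x, sum_abs_prod_cf g hg0 hg1 D,
    fun E _ => (qq_one E).le⟩

/-- the sieve weight of the two blocks -/
noncomputable def V2 (g₂ : Fin n₂ → ℝ) (y : Col n₂ κ → ℝ) (M : ℕ) (x₁ : Col n₁ κ)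
    (x₂ : Col n₂ κ) : ℝ := VV g₂ (fun D => y D * RB M (cols D) x₁) x₂

theorem Lw_V2 (g₂ : Fin n₂ → ℝ) (hg0 : ∀ i, 0 ≤ g₂ i) (hg1 : ∀ i, g₂ i ≤ 1) (p : Fin n₂ → ℝ)
    (y : Col n₂ κ → ℝ) (hy : ∀ D, |y D| ≤ 1) (Q : ℝ) (hQ : ∀ D, y D ≠ 0 → qq p D ≤ Q) (M : ℕ) :
    Lw ((((n₁:ℝ) + 1) * ((Fintype.card κ : ℝ) + 1)) ^ M * ∑ D : Col n₂ κ with qq p D ≤ Q,
      2 ^ (univ.filter (fun i => D i ≠ none)).card)
      (fun x : Col (n₁ + n₂) κ => V2 g₂ y M (fstc x) (sndc x)) := by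
  have h1 := Lw_sum (n := n₁ + n₂) (κ := κ) univ (fun D : Col n₂ κ =>
    |y D| * ((((n₁:ℝ) + 1) * ((Fintype.card κ : ℝ) + 1)) ^ M *
      2 ^ (univ.filter (fun i => D i ≠ none)).card))
    (fun D x => y D * (RB M (cols D) (fstc x) * psi g₂ D (sndc x)))
    (fun D _ => Lw_smul _ (Lw_mul (Lw_fst (Lw_RB M (cols D))) (Lw_snd (Lw_psi g₂ hg0 hg1 D))))
  have h2 : (fun x : Col (n₁ + n₂) κ => ∑ D : Col n₂ κ,
      y D * (RB M (cols D) (fstc x) * psi g₂ D (sndc x))) =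
      fun x => V2 g₂ y M (fstc x) (sndc x) := by
    funext x
    unfold V2 VV
    refine Finset.sum_congr rfl fun D _ => ?_
    ring
  rw [h2] at h1
  refine Lw_mono ?_ h1
  rw [Finset.mul_sum, Finset.sum_filter]
  apply Finset.sum_le_sum
  intro D _
  have hR : (0:ℝ) ≤ (((n₁:ℝ) + 1) * ((Fintype.card κ : ℝ) + 1)) ^ M *
      2 ^ (univ.filter (fun i => D i ≠ none)).card := by positivity
  split_ifs with hD
  · calc |y D| * ((((n₁:ℝ) + 1) * ((Fintype.card κ : ℝ) + 1)) ^ M *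
        2 ^ (univ.filter (fun i => D i ≠ none)).card) ≤ 1 *
          ((((n₁:ℝ) + 1) * ((Fintype.card κ : ℝ) + 1)) ^ M *
        2 ^ (univ.filter (fun i => D i ≠ none)).card) := mul_le_mul_of_nonneg_right (hy D) hR
      _ = _ := one_mul _
  · have h3 : y D = 0 := by
      by_contra h4
      exact hD (hQ D h4)
    rw [h3, abs_zero, zero_mul]

section
variable {p g₂ : Fin n₂ → ℝ} {h : Finset (Fin n₂) → ℝ} {z K v₀ : ℝ} {g₁ : Fin n₁ → ℝ}

theorem EE_nonneg {g : Fin n → ℝ} (hw : ∀ i (c : Option κ), 0 ≤ wt (g i) c) {F : Col n κ → ℝ}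
    (hF : ∀ x, 0 ≤ F x) : 0 ≤ EE g F :=
  Finset.sum_nonneg fun x _ => mul_nonneg (Finset.prod_nonneg fun i _ => hw i _) (hF x)

theorem lower2 (H : HypS p g₂ h z K v₀) (hg₁ : ∀ i, 0 ≤ g₁ i)
    (hg₁u : ∀ i, (Fintype.card κ : ℝ) * g₁ i ≤ 1 / 2) (Q δ T : ℝ) (M : ℕ) (hM : Even M)
    (hug : ∀ i, (Fintype.card κ : ℝ) * g₂ i ≤ 1)
    (hδ : ∀ D : Col n₂ κ, qq p D ≤ Q → 2 * ∑ i with D i ≠ none, g₂ i ≤ δ)
    (hug4 : (Fintype.card κ : ℝ) * δ ≤ 1 / 4) (hQ0 : 0 < Q)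
    (hT : ∑ D : Col n₂ κ with Q / z < qq p D, om g₁ D * ((yy h D) ^ 2 * nu g₂ D) ≤ T)
    (hT8 : T ≤ 1 / 8 * Zw (om g₁ : Col n₂ κ → ℝ) g₂ h)
    (hZ0 : 0 ≤ Zw (om g₁ : Col n₂ κ → ℝ) g₂ h) :
    3 / 4 * Zw (om g₁ : Col n₂ κ → ℝ) g₂ h ≤
      EE g₁ (fun x₁ : Col n₁ κ => EE g₂ (fun x₂ : Col n₂ κ => (V2 g₂ (yT p h Q) M x₁ x₂) ^ 2)) := by
  have hw : ∀ i (c : Option κ), 0 ≤ wt (g₂ i) c := fun i c => wt_nonneg (H.g0 i).le (hug i) c
  have hw₁ : ∀ i (c : Option κ), 0 ≤ wt (g₁ i) c := fun i c =>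
    wt_nonneg (hg₁ i) (by linarith [hg₁u i]) c
  set B : Col n₂ κ → ℝ := fun D =>
    ∏ i, (nu1 (g₂ i) (D i) * nu1 (1 - (Fintype.card κ : ℝ) * g₂ i) (D i)) with hB
  have hB0 : ∀ D, 0 ≤ B D := by
    intro D
    apply Finset.prod_nonneg
    intro i _
    cases D i with
    | none => simp [nu1]
    | some k =>
      simp only [nu1]
      exact mul_nonneg (H.g0 i).le (by linarith [hug i])
  have h1 : EE g₁ (fun x₁ : Col n₁ κ => ∑ D : Col n₂ κ, B D * (yT p h Q D) ^ 2 *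
      (RB M (cols D) x₁) ^ 2) ≤
      EE g₁ (fun x₁ : Col n₁ κ => EE g₂ (fun x₂ : Col n₂ κ => (V2 g₂ (yT p h Q) M x₁ x₂) ^ 2)) := by
    apply EE_mono hw₁
    intro x₁
    refine le_trans (le_of_eq ?_) (tensor_lower (κ := κ) g₂
      (fun i c => nu1 (g₂ i) c * nu1 (1 - (Fintype.card κ : ℝ) * g₂ i) c) hw
      (by
        intro i c
        cases c with
        | none => simp [nu1]
        | some k =>
          simp only [nu1]
          exact mul_nonneg (H.g0 i).le (by linarith [hug i]))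
      (fun i Y => local_lower (g₂ i) (H.g0 i).le Y) (fun D => yT p h Q D * RB M (cols D) x₁))
    refine Finset.sum_congr rfl fun D _ => ?_
    simp only [hB]
    ring
  refine le_trans ?_ h1
  rw [EE_sum]
  have h2 : ∀ D : Col n₂ κ, (if qq p D ≤ Q then 7 / 8 * (om g₁ D * ((yy h D) ^ 2 * nu g₂ D)) else 0) ≤
      EE g₁ (fun x₁ : Col n₁ κ => B D * (yT p h Q D) ^ 2 * (RB M (cols D) x₁) ^ 2) := by
    intro D
    rw [EE_smul]
    have e0 := EE_RB_lower hw₁ M hM (cols D)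
    have e00 : 0 ≤ om g₁ D := om_nonneg hg₁ hg₁u D
    unfold yT
    split_ifs with hD
    · have e1 : 7 / 8 * nu g₂ D ≤ B D := by
        simp only [hB]
        rw [Finset.prod_mul_distrib]
        have e1 : ∏ i, nu1 (1 - (Fintype.card κ : ℝ) * g₂ i) (D i) =
            ∏ i ∈ Pool.Agent.H256R2.SC.supp D, (1 - (Fintype.card κ : ℝ) * g₂ i) := prod_nu1 _ D
        rw [e1]
        have e2 : 7 / 8 ≤ ∏ i ∈ Pool.Agent.H256R2.SC.supp D, (1 - (Fintype.card κ : ℝ) * g₂ i) := by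
          refine le_trans ?_ (prod_ge_one_sub_sum (Pool.Agent.H256R2.SC.supp D)
            (fun i => (Fintype.card κ : ℝ) * g₂ i)
            (fun i => mul_nonneg (Nat.cast_nonneg _) (H.g0 i).le) hug)
          rw [← Finset.mul_sum]
          have e3 := hδ D hD
          have e4 : ∑ i ∈ Pool.Agent.H256R2.SC.supp D, g₂ i ≤ δ / 2 := by
            unfold Pool.Agent.H256R2.SC.supp
            linarith
          have e5 : (Fintype.card κ : ℝ) * ∑ i ∈ Pool.Agent.H256R2.SC.supp D, g₂ i ≤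
              (Fintype.card κ : ℝ) * (δ / 2) :=
            mul_le_mul_of_nonneg_left e4 (Nat.cast_nonneg _)
          nlinarith
        have e6 : 0 ≤ nu g₂ D := nu_nonneg H.g0 D
        have e7 : ∏ i, nu1 (g₂ i) (D i) = nu g₂ D := rfl
        rw [e7]
        nlinarith
      have e2 : 7 / 8 * nu g₂ D * (yy h D) ^ 2 ≤ B D * (yy h D) ^ 2 :=
        mul_le_mul_of_nonneg_right e1 (sq_nonneg _)
      have e3 : 0 ≤ B D * (yy h D) ^ 2 := mul_nonneg (hB0 D) (sq_nonneg _)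
      calc 7 / 8 * (om g₁ D * ((yy h D) ^ 2 * nu g₂ D)) =
            (7 / 8 * nu g₂ D * (yy h D) ^ 2) * om g₁ D := by ring
        _ ≤ (B D * (yy h D) ^ 2) * om g₁ D := mul_le_mul_of_nonneg_right e2 e00
        _ ≤ _ := mul_le_mul_of_nonneg_left e0 e3
    · simp
  refine le_trans ?_ (Finset.sum_le_sum (fun D _ => h2 D))
  rw [← Finset.sum_filter, ← Finset.mul_sum]
  have h3 : Zw (om g₁ : Col n₂ κ → ℝ) g₂ h =
      ∑ D : Col n₂ κ with qq p D ≤ Q, om g₁ D * ((yy h D) ^ 2 * nu g₂ D) +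
      ∑ D : Col n₂ κ with ¬ qq p D ≤ Q, om g₁ D * ((yy h D) ^ 2 * nu g₂ D) := by
    unfold Zw
    rw [Finset.sum_filter_add_sum_filter_not]
  have h4 : ∑ D : Col n₂ κ with ¬ qq p D ≤ Q, om g₁ D * ((yy h D) ^ 2 * nu g₂ D) ≤
      ∑ D : Col n₂ κ with Q / z < qq p D, om g₁ D * ((yy h D) ^ 2 * nu g₂ D) := by
    apply Finset.sum_le_sum_of_subset_of_nonneg
    · intro D hD
      rw [Finset.mem_filter] at hD ⊢
      refine ⟨hD.1, lt_of_le_of_lt ?_ (not_le.mp hD.2)⟩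
      exact div_le_self hQ0.le H.z1.le
    · intro D _ _
      exact mul_nonneg (om_nonneg hg₁ hg₁u D) (mul_nonneg (sq_nonneg _) (nu_nonneg H.g0 D))
  linarith

theorem RB_er (M : ℕ) (k : κ) (x₁ : Col n₁ κ) (hx : ∀ i, x₁ i ≠ some k) (D : Col n₂ κ) :
    RB M (cols D) x₁ = RB M (cols (er k D)) x₁ := by
  unfold RB
  congr 1
  funext i
  cases hxi : x₁ i with
  | none => rfl
  | some l =>
    have hl : l ≠ k := by
      intro h
      exact hx i (by rw [hxi, h])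
    have h1 : l ∈ cols D ↔ l ∈ cols (er k D) := by
      rw [mem_cols, mem_cols, E_fib_er_ne hl]
    unfold pk
    by_cases h2 : l ∈ cols D
    · simp [h2, h1.1 h2]
    · have h3 : l ∉ cols (er k D) := fun h => h2 (h1.2 h)
      simp [h2, h3]

theorem red_RB (y : Col n₂ κ → ℝ) (M : ℕ) (k : κ) (x₁ : Col n₁ κ) (hx : ∀ i, x₁ i ≠ some k)
    (D' : Col n₂ κ) :
    red g₂ (fun D => y D * RB M (cols D) x₁) k D' = RB M (cols D') x₁ * red g₂ y k D' := by
  unfold red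
  rw [Finset.mul_sum]
  refine Finset.sum_congr rfl fun D hD => ?_
  rw [Finset.mem_filter] at hD
  beta_reduce
  rw [RB_er M k x₁ hx D, hD.2]
  ring

theorem red_card (H : HypS p g₂ h z K v₀) (Q : ℝ) (k : κ) (D' : Col n₂ κ)
    (hD : red g₂ (yT p h Q) k D' ≠ 0) : ((cols D').card : ℝ) ≤ Real.log Q / v₀ := by
  unfold red at hD
  obtain ⟨D, hD1, hD2⟩ := Finset.exists_ne_zero_of_sum_ne_zero hD
  rw [Finset.mem_filter] at hD1
  have h1 := card_cols H Q D (left_ne_zero_of_mul hD2)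
  have h2 : ((cols D').card : ℝ) ≤ (cols D).card := by
    rw [← hD1.2]
    exact_mod_cast Finset.card_le_card (cols_er_sub k D)
  linarith

theorem avoid2 (H : HypS p g₂ h z K v₀) (hg₁ : ∀ i, 0 ≤ g₁ i)
    (hg₁u : ∀ i, (Fintype.card κ : ℝ) * g₁ i ≤ 1 / 2) (Q δ T : ℝ) (M : ℕ) (hM : Even M)
    (hug : ∀ i, (Fintype.card κ : ℝ) * g₂ i ≤ 1)
    (hδ : ∀ D : Col n₂ κ, qq p D ≤ Q → 2 * ∑ i with D i ≠ none, g₂ i ≤ δ) (hQ0 : 0 < Q)
    (hMm : (17 * (Real.log Q / v₀) + 48) * ∑ i, g₁ i ≤ 2 * M)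
    (hT : ∑ D : Col n₂ κ with Q / z < qq p D, om g₁ D * ((yy h D) ^ 2 * nu g₂ D) ≤ T) (k : κ) :
    EE g₁ (fun x₁ : Col n₁ κ => EE g₂ (fun x₂ : Col n₂ κ =>
      (if (∀ i, x₁ i ≠ some k) ∧ (∀ i, x₂ i ≠ some k) then 1 else 0) *
        (V2 g₂ (yT p h Q) M x₁ x₂) ^ 2)) ≤
      2 * (δ ^ 2 * Zw (om g₁ : Col n₂ κ → ℝ) g₂ h + T) := by
  have hw : ∀ i (c : Option κ), 0 ≤ wt (g₂ i) c := fun i c => wt_nonneg (H.g0 i).le (hug i) c
  have hw₁ : ∀ i (c : Option κ), 0 ≤ wt (g₁ i) c := fun i c =>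
    wt_nonneg (hg₁ i) (by linarith [hg₁u i]) c
  have hG : 0 ≤ ∑ i, g₁ i := Finset.sum_nonneg fun i _ => hg₁ i
  have h1 : EE g₁ (fun x₁ : Col n₁ κ => EE g₂ (fun x₂ : Col n₂ κ =>
      (if (∀ i, x₁ i ≠ some k) ∧ (∀ i, x₂ i ≠ some k) then 1 else 0) *
        (V2 g₂ (yT p h Q) M x₁ x₂) ^ 2)) ≤
      EE g₁ (fun x₁ : Col n₁ κ => ∑ D : Col n₂ κ,
        (nu g₂ D * (red g₂ (yT p h Q) k D) ^ 2) * (RB M (cols D) x₁) ^ 2) := by
    apply EE_mono hw₁
    intro x₁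
    by_cases hx : ∀ i, x₁ i ≠ some k
    · have h2 := rough_bound g₂ (fun i => (H.g0 i).le) hw
        (fun D => yT p h Q D * RB M (cols D) x₁) k
      refine le_trans (le_of_eq ?_) (h2.trans (le_of_eq ?_))
      · congr 1
        funext x₂
        unfold V2
        congr 1
        by_cases hx₂ : ∀ i, x₂ i ≠ some k
        · rw [if_pos ⟨hx, hx₂⟩, if_pos hx₂]
        · rw [if_neg (fun hc => hx₂ hc.2), if_neg hx₂]
      · refine Finset.sum_congr rfl fun D _ => ?_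
        rw [red_RB (yT p h Q) M k x₁ hx D]
        ring
    · have h2 : (fun x₂ : Col n₂ κ =>
          (if (∀ i, x₁ i ≠ some k) ∧ (∀ i, x₂ i ≠ some k) then (1:ℝ) else 0) *
          (V2 g₂ (yT p h Q) M x₁ x₂) ^ 2) = fun _ => 0 := by
        funext x₂
        rw [if_neg (fun hc => hx hc.1), zero_mul]
      rw [h2]
      have h3 : EE g₂ (fun _ : Col n₂ κ => (0:ℝ)) = 0 := by
        unfold EE
        simp
      rw [h3]
      apply Finset.sum_nonneg
      intro D _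
      exact mul_nonneg (mul_nonneg (nu_nonneg H.g0 D) (sq_nonneg _)) (sq_nonneg _)
  refine h1.trans ?_
  rw [EE_sum]
  have h2 : ∀ D : Col n₂ κ, EE g₁ (fun x₁ : Col n₁ κ =>
      (nu g₂ D * (red g₂ (yT p h Q) k D) ^ 2) * (RB M (cols D) x₁) ^ 2) ≤
      2 * (om g₁ D * (nu g₂ D * (red g₂ (yT p h Q) k D) ^ 2)) := by
    intro D
    rw [EE_smul]
    by_cases hD : red g₂ (yT p h Q) k D = 0
    · rw [hD]
      simp
    · have h3 := red_card H Q k D hD
      have h4 := EE_RB_upper hg₁ hw₁ hg₁u M hM (cols D) 0 le_rfl k (by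
        have : (17 * ((cols D).card : ℝ) + 16 * 0) * ∑ i, g₁ i ≤
            (17 * (Real.log Q / v₀) + 48) * ∑ i, g₁ i :=
          mul_le_mul_of_nonneg_right (by linarith) hG
        linarith)
      have h5 : (fun x : Col n₁ κ => (∏ i, if x i = some k then (1:ℝ) + 0 else 1) *
          (RB M (cols D) x) ^ 2) = fun x => (RB M (cols D) x) ^ 2 := by
        funext x
        simp
      rw [h5] at h4
      simp only [mul_zero, zero_mul, Real.exp_zero, mul_one] at h4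
      have h6 : 0 ≤ nu g₂ D * (red g₂ (yT p h Q) k D) ^ 2 :=
        mul_nonneg (nu_nonneg H.g0 D) (sq_nonneg _)
      refine (mul_le_mul_of_nonneg_left h4 h6).trans (le_of_eq ?_)
      unfold om
      ring
  refine (Finset.sum_le_sum fun D _ => h2 D).trans ?_
  rw [← Finset.mul_sum]
  apply mul_le_mul_of_nonneg_left _ (by norm_num)
  refine (H.red_yT Q δ hQ0 hδ k (om g₁) (om_nonneg hg₁ hg₁u)).trans ?_
  unfold Zw
  linarith

theorem moment2 (H : HypS p g₂ h z K v₀) (hg₁ : ∀ i, 0 ≤ g₁ i)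
    (hg₁u : ∀ i, (Fintype.card κ : ℝ) * g₁ i ≤ 1 / 2) (Q : ℝ) (M : ℕ) (hM : Even M)
    (hug : ∀ i, (Fintype.card κ : ℝ) * g₂ i ≤ 1) (htg : ∀ i, 3 * 3 * g₂ i ≤ 1)
    (hMm : (17 * (Real.log Q / v₀) + 48) * ∑ i, g₁ i ≤ 2 * M) (k : κ) :
    EE g₁ (fun x₁ : Col n₁ κ => EE g₂ (fun x₂ : Col n₂ κ =>
      (∏ i, if x₁ i = some k then (1:ℝ) + 3 else 1) * ((∏ i, if x₂ i = some k then (1:ℝ) + 3 else 1) *
        (V2 g₂ (yT p h Q) M x₁ x₂) ^ 2))) ≤
      2 * Real.exp (6 * (∑ i, g₁ i) + 20 * ∑ i, g₂ i) * Zw (om g₁ : Col n₂ κ → ℝ) g₂ h := by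
  have hw : ∀ i (c : Option κ), 0 ≤ wt (g₂ i) c := fun i c => wt_nonneg (H.g0 i).le (hug i) c
  have hw₁ : ∀ i (c : Option κ), 0 ≤ wt (g₁ i) c := fun i c =>
    wt_nonneg (hg₁ i) (by linarith [hg₁u i]) c
  have hG : 0 ≤ ∑ i, g₁ i := Finset.sum_nonneg fun i _ => hg₁ i
  have hbet : ∀ i (c : Option κ), 0 ≤ bet (g₂ i) 3 k c := by
    intro i c
    have := (H.g0 i).le
    cases c with
    | none =>
      simp only [bet]
      positivity
    | some l =>
      simp only [bet]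
      split_ifs
      · positivity
      · exact this
  have h1 : EE g₁ (fun x₁ : Col n₁ κ => EE g₂ (fun x₂ : Col n₂ κ =>
      (∏ i, if x₁ i = some k then (1:ℝ) + 3 else 1) * ((∏ i, if x₂ i = some k then (1:ℝ) + 3 else 1) *
        (V2 g₂ (yT p h Q) M x₁ x₂) ^ 2))) ≤
      EE g₁ (fun x₁ : Col n₁ κ => ∑ D : Col n₂ κ,
        ((∏ i, bet (g₂ i) 3 k (D i)) * (yT p h Q D) ^ 2) *
          ((∏ i, if x₁ i = some k then (1:ℝ) + 3 else 1) * (RB M (cols D) x₁) ^ 2)) := by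
    apply EE_mono hw₁
    intro x₁
    rw [EE_smul]
    have h2 := tensor_upper (κ := κ) g₂ (fun _ c => if c = some k then (1:ℝ) + 3 else 1)
      (fun i c => bet (g₂ i) 3 k c) hw
      (by intro i c; split_ifs <;> norm_num) hbet
      (fun i Y => local_wt (g₂ i) 3 (H.g0 i).le (by norm_num) (htg i) k Y)
      (fun D => yT p h Q D * RB M (cols D) x₁)
    have h3 : 0 ≤ ∏ i, (if x₁ i = some k then (1:ℝ) + 3 else 1) := by
      apply Finset.prod_nonneg
      intro i _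
      split_ifs <;> norm_num
    refine (mul_le_mul_of_nonneg_left h2 h3).trans (le_of_eq ?_)
    rw [Finset.mul_sum]
    refine Finset.sum_congr rfl fun D _ => ?_
    ring
  refine h1.trans ?_
  rw [EE_sum]
  have h2 : ∀ D : Col n₂ κ, EE g₁ (fun x₁ : Col n₁ κ =>
        ((∏ i, bet (g₂ i) 3 k (D i)) * (yT p h Q D) ^ 2) *
          ((∏ i, if x₁ i = some k then (1:ℝ) + 3 else 1) * (RB M (cols D) x₁) ^ 2)) ≤
      2 * Real.exp (6 * ∑ i, g₁ i) * (om g₁ D * ((∏ i, bet (g₂ i) 3 k (D i)) * (yy h D) ^ 2)) := by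
    intro D
    have hom := om_nonneg (κ := κ) hg₁ hg₁u D
    have hbp : 0 ≤ ∏ i, bet (g₂ i) 3 k (D i) := Finset.prod_nonneg fun i _ => hbet i _
    rw [EE_smul]
    by_cases hD : yT p h Q D = 0
    · rw [hD]
      have : 0 ≤ om g₁ D * ((∏ i, bet (g₂ i) 3 k (D i)) * (yy h D) ^ 2) :=
        mul_nonneg hom (mul_nonneg hbp (sq_nonneg _))
      have h0 := Real.exp_pos (6 * ∑ i, g₁ i)
      simp only [ne_eq, OfNat.ofNat_ne_zero, not_false_eq_true, zero_pow, mul_zero, zero_mul]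
      positivity
    · have h3 := card_cols H Q D hD
      have h4 := EE_RB_upper hg₁ hw₁ hg₁u M hM (cols D) 3 (by norm_num) k (by
        have : (17 * ((cols D).card : ℝ) + 16 * 3) * ∑ i, g₁ i ≤
            (17 * (Real.log Q / v₀) + 48) * ∑ i, g₁ i :=
          mul_le_mul_of_nonneg_right (by linarith) hG
        linarith)
      have h5 : (yT p h Q D) ^ 2 ≤ (yy h D) ^ 2 := by
        unfold yT
        split_ifs
        · exact le_rfl
        · simpa using sq_nonneg (yy h D)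
      have h6 : 0 ≤ (∏ i, bet (g₂ i) 3 k (D i)) * (yT p h Q D) ^ 2 :=
        mul_nonneg hbp (sq_nonneg _)
      have h7 : (∏ i, bet (g₂ i) 3 k (D i)) * (yT p h Q D) ^ 2 ≤
          (∏ i, bet (g₂ i) 3 k (D i)) * (yy h D) ^ 2 := mul_le_mul_of_nonneg_left h5 hbp
      have h8 : 0 ≤ 2 * Real.exp (2 * 3 * ∑ i, g₁ i) * rho g₁ (cols D).card := by
        have h0 := Real.exp_pos (2 * 3 * ∑ i, g₁ i)
        have : 0 ≤ rho g₁ (cols D).card := hom
        positivity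
      refine (mul_le_mul_of_nonneg_left h4 h6).trans ?_
      refine (mul_le_mul_of_nonneg_right h7 h8).trans (le_of_eq ?_)
      unfold om
      norm_num
      ring
  refine (Finset.sum_le_sum fun D _ => h2 D).trans ?_
  rw [← Finset.mul_sum]
  have h3 := weighted_rho (κ := κ) (g := g₂) (h := h) (fun i => (H.g0 i).le) H.h0 H.h1 (om g₁)
    (om_nonneg hg₁ hg₁u) k (fun D => om_anti hg₁ hg₁u D k) 3 (by norm_num)
  have h4 : (0:ℝ) ≤ 2 * Real.exp (6 * ∑ i, g₁ i) := by positivity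
  refine (mul_le_mul_of_nonneg_left h3 h4).trans (le_of_eq ?_)
  rw [Real.exp_add]
  norm_num
  ring

theorem Zw_ge_one (H : HypS p g₂ h z K v₀) (hg₁ : ∀ i, 0 ≤ g₁ i)
    (hg₁u : ∀ i, (Fintype.card κ : ℝ) * g₁ i ≤ 1 / 2) :
    1 ≤ Zw (om g₁ : Col n₂ κ → ℝ) g₂ h := by
  unfold Zw
  have h1 : om g₁ (fun _ => none : Col n₂ κ) *
      ((yy h (fun _ => none : Col n₂ κ)) ^ 2 * nu g₂ (fun _ => none : Col n₂ κ)) = 1 := by
    have hf : ∀ k : κ, fib (fun _ => none : Col n₂ κ) k = ∅ := by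
      intro k
      unfold fib
      simp
    have e1 : yy h (fun _ => none : Col n₂ κ) = 1 := by
      unfold yy
      apply Finset.prod_eq_one
      intro k _
      rw [hf k]
      simp [al]
    have e2 : nu g₂ (fun _ => none : Col n₂ κ) = 1 := by
      unfold nu
      apply Finset.prod_eq_one
      intro i _
      simp [nu1]
    have e3 : om g₁ (fun _ => none : Col n₂ κ) = 1 := by
      unfold om
      have : cols (fun _ => none : Col n₂ κ) = ∅ := by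
        unfold cols
        rw [Finset.filter_eq_empty_iff]
        intro k _
        rw [hf k]
        simp
      rw [this, Finset.card_empty, rho_zero]
    rw [e1, e2, e3]; norm_num
  rw [← h1]
  exact Finset.single_le_sum (f := fun D : Col n₂ κ => om g₁ D * ((yy h D) ^ 2 * nu g₂ D))
    (fun D _ => mul_nonneg (om_nonneg hg₁ hg₁u D) (mul_nonneg (sq_nonneg _) (nu_nonneg H.g0 D)))
    (Finset.mem_univ _)

end

end Pool.Agent.Y831.RC
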