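import Pool.Agent.Y831.RC2.Core2

set_option autoImplicit false
set_option linter.unusedSectionVars false

/-! # The abstract covering sieve with two blocks of primes: assembly -/

namespace Pool.Agent.Y831.RC

open Finset Pool.Agent.H256R2.SC

variable {n₁ n₂ : ℕ} {κ : Type} [Fintype κ] [DecidableEq κ]

theorem core_two {α : Type} [DecidableEq α] (𝒜 : Finset α) (col : α → Col (n₁ + n₂) κ)
    {p g₂ : Fin n₂ → ℝ} {h : Finset (Fin n₂) → ℝ} {z K v₀ : ℝ} (H : HypS p g₂ h z K v₀)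
    (g₁ : Fin n₁ → ℝ) (Q δ N Err η s CB : ℝ) (J M : ℕ) (hJ : Even J) (hM : Even M)
    (hN : 0 < N) (hErr : 0 ≤ Err) (hQz : 1 ≤ Q) (hη0 : 0 < η) (hη1 : η ≤ 1) (hs : 0 < s)
    (hg₁ : ∀ i, 0 ≤ g₁ i) (hg₁u : ∀ i, (Fintype.card κ : ℝ) * g₁ i ≤ 1 / 2)
    (hρ1 : 0 ≤ rho g₁ 1)
    (hg1 : ∀ i, g₂ i ≤ 1) (htg : ∀ i, 3 * 3 * g₂ i ≤ 1)
    (hug : ∀ i, (Fintype.card κ : ℝ) * g₂ i ≤ 1)
    (hδ : ∀ D : Col n₂ κ, qq p D ≤ Q → 2 * ∑ i with D i ≠ none, g₂ i ≤ δ)
    (hug4 : (Fintype.card κ : ℝ) * δ ≤ 1 / 4)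
    (hMm : (17 * (Real.log Q / v₀) + 48) * ∑ i, g₁ i ≤ 2 * M)
    (hCB : Q ^ s * Real.exp (2 * (Fintype.card κ : ℝ) * ∑ i, 1 / (p i) ^ s) ≤ CB)
    (htail : (Fintype.card κ + 1 : ℝ) * (δ ^ 2 + Real.exp (η * ((1 + η) * (Fintype.card κ : ℝ) *
      (rho g₁ 1 * K) / Real.log z - Real.log (Q / z) / Real.log z))) ≤ 1 / 16)
    (hmom : (Fintype.card κ : ℝ) * (1 / 3) ^ J *
      Real.exp (6 * (∑ i, g₁ i) + 20 * ∑ i, g₂ i) ≤ 1 / 16)
    (hcnt : ∀ D : Col (n₁ + n₂) κ,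
      |((𝒜.filter (fun a => ∀ i, D i ≠ none → col a i = D i)).card : ℝ) -
        N * nu (Fin.append g₁ g₂) D| ≤ Err)
    (hfin : Err * (((((n₁:ℝ) + 1) * ((Fintype.card κ : ℝ) + 1)) ^ M * CB) ^ 2 *
      (1 + Fintype.card κ * ((n₁:ℝ) + n₂ + 1) ^ J)) < N / 8) :
    ∃ a ∈ 𝒜, ∀ k, ∃ i, col a i = some k := by
  set u : ℝ := (Fintype.card κ : ℝ) with hu
  have hu0 : 0 ≤ u := Nat.cast_nonneg _
  have hQ0 : 0 < Q := by linarith
  have hz0 : 0 < z := by linarith [H.z1]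
  have hw : ∀ i (c : Option κ), 0 ≤ wt (g₂ i) c := fun i c => wt_nonneg (H.g0 i).le (hug i) c
  have hw₁ : ∀ i (c : Option κ), 0 ≤ wt (g₁ i) c := fun i c =>
    wt_nonneg (hg₁ i) (by linarith [hg₁u i]) c
  set E : ℝ := Real.exp (η * ((1 + η) * u * (rho g₁ 1 * K) / Real.log z -
    Real.log (Q / z) / Real.log z)) with hE
  set Z : ℝ := Zw (om g₁ : Col n₂ κ → ℝ) g₂ h with hZ
  have hZ1 : 1 ≤ Z := Zw_ge_one H hg₁ hg₁u
  have hE0 : 0 < E := Real.exp_pos _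
  have hp1 : ∀ i, 1 ≤ p i := fun i => (H.p1 i).le
  have hT : ∑ D : Col n₂ κ with Q / z < qq p D, om g₁ D * ((yy h D) ^ 2 * nu g₂ D) ≤ E * Z :=
    tail_rho H (om g₁) (om_nonneg hg₁ hg₁u) (rho g₁ 1) hρ1
      (fun D k hD => om_step hg₁ hg₁u D k hD) η hη0 hη1 (Q / z) (by positivity)
  have hE8 : E ≤ 1 / 16 := by
    have : δ ^ 2 + E ≤ (u + 1) * (δ ^ 2 + E) := by nlinarith [sq_nonneg δ]
    nlinarith [sq_nonneg δ]
  have hT8 : E * Z ≤ 1 / 8 * Z := by nlinarith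
  set V : Col n₁ κ → Col n₂ κ → ℝ := V2 g₂ (yT p h Q) M with hV
  have hlow : 3 / 4 * Z ≤ EE g₁ (fun x₁ => EE g₂ (fun x₂ => (V x₁ x₂) ^ 2)) :=
    lower2 H hg₁ hg₁u Q δ (E * Z) M hM hug hδ hug4 hQ0 hT hT8 (by linarith)
  set G : Col (n₁ + n₂) κ → ℝ := fun x => V (fstc x) (sndc x) with hG
  -- the majorants
  have hup : ∀ k, EE (Fin.append g₁ g₂) (fun x => (G x) ^ 2 * SS J k x) ≤
      2 * (δ ^ 2 * Z + E * Z) + (1 / 3) ^ J *
        (2 * Real.exp (6 * (∑ i, g₁ i) + 20 * ∑ i, g₂ i) * Z) := by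
    intro k
    rw [EE_append]
    have h1 := avoid2 H hg₁ hg₁u Q δ (E * Z) M hM hug hδ hQ0 hMm hT k
    have h2 := moment2 H hg₁ hg₁u Q M hM hug htg hMm k
    have h3 : EE g₁ (fun x₁ => EE g₂ (fun x₂ =>
        (G (Fin.append x₁ x₂)) ^ 2 * SS J k (Fin.append x₁ x₂))) ≤
        EE g₁ (fun x₁ : Col n₁ κ => EE g₂ (fun x₂ : Col n₂ κ =>
          (if (∀ i, x₁ i ≠ some k) ∧ (∀ i, x₂ i ≠ some k) then 1 else 0) * (V x₁ x₂) ^ 2) +
          (1 / 3) ^ J * EE g₂ (fun x₂ : Col n₂ κ => (∏ i, if x₁ i = some k then (1:ℝ) + 3 else 1) *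
            ((∏ i, if x₂ i = some k then (1:ℝ) + 3 else 1) * (V x₁ x₂) ^ 2))) := by
      apply EE_mono hw₁
      intro x₁
      rw [← EE_smul, ← EE_add]
      apply EE_mono hw
      intro x₂
      have h4 := SS_upper J hJ 3 (by norm_num) k (Fin.append x₁ x₂)
      have h5 : (∀ i, (Fin.append x₁ x₂) i ≠ some k) ↔
          (∀ i, x₁ i ≠ some k) ∧ (∀ i, x₂ i ≠ some k) := by
        constructor
        · intro h
          refine ⟨fun i => ?_, fun i => ?_⟩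
          · have := h (Fin.castAdd n₂ i)
            rwa [Fin.append_left] at this
          · have := h (Fin.natAdd n₁ i)
            rwa [Fin.append_right] at this
        · rintro ⟨ha, hb⟩ i
          refine Fin.addCases (fun j => ?_) (fun j => ?_) i
          · rw [Fin.append_left]; exact ha j
          · rw [Fin.append_right]; exact hb j
      rw [Fin.prod_univ_add] at h4
      simp only [Fin.append_left, Fin.append_right] at h4
      have h6 : G (Fin.append x₁ x₂) = V x₁ x₂ := by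
        simp only [hG]
        rw [fstc_append, sndc_append]
      rw [h6]
      have h7 := mul_le_mul_of_nonneg_left h4 (sq_nonneg (V x₁ x₂))
      refine h7.trans (le_of_eq ?_)
      by_cases h8 : ∀ i, (Fin.append x₁ x₂) i ≠ some k
      · rw [if_pos h8, if_pos (h5.1 h8)]
        ring
      · rw [if_neg h8, if_neg (fun hc => h8 (h5.2 hc))]
        ring
    refine h3.trans ?_
    rw [EE_add, EE_smul]
    have h9 := mul_le_mul_of_nonneg_left h2 (show (0:ℝ) ≤ (1 / 3) ^ J by positivity)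
    exact add_le_add h1 h9
  set F : Col (n₁ + n₂) κ → ℝ := fun x => G x ^ 2 * (1 - ∑ k, SS J k x) with hF
  have hEF : Z / 2 ≤ EE (Fin.append g₁ g₂) F := by
    have e1 : EE (Fin.append g₁ g₂) F = EE (Fin.append g₁ g₂) (fun x => (G x) ^ 2) -
        ∑ k, EE (Fin.append g₁ g₂) (fun x => (G x) ^ 2 * SS J k x) := by
      rw [← EE_sum, ← EE_sub]
      congr 1
      funext x
      rw [hF]
      simp only
      rw [← Finset.mul_sum]
      ring
    have e0 : EE (Fin.append g₁ g₂) (fun x => (G x) ^ 2) =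
        EE g₁ (fun x₁ => EE g₂ (fun x₂ => (V x₁ x₂) ^ 2)) := by
      rw [EE_append]
      simp only [hG, fstc_append, sndc_append]
    rw [e1, e0]
    have e2 : ∑ k : κ, EE (Fin.append g₁ g₂) (fun x => (G x) ^ 2 * SS J k x) ≤
        u * (2 * (δ ^ 2 * Z + E * Z) + (1 / 3) ^ J *
        (2 * Real.exp (6 * (∑ i, g₁ i) + 20 * ∑ i, g₂ i) * Z)) := by
      refine (Finset.sum_le_sum (fun k _ => hup k)).trans ?_
      rw [Finset.sum_const, Finset.card_univ, nsmul_eq_mul]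
    have e3 : u * (2 * (δ ^ 2 * Z + E * Z)) ≤ 1 / 8 * Z := by
      have : u * (δ ^ 2 + E) ≤ 1 / 16 := by nlinarith [sq_nonneg δ]
      nlinarith
    have e4 : u * ((1 / 3) ^ J * (2 * Real.exp (6 * (∑ i, g₁ i) + 20 * ∑ i, g₂ i) * Z)) ≤
        1 / 8 * Z := by
      have := mul_le_mul_of_nonneg_right hmom (show (0:ℝ) ≤ Z by linarith)
      nlinarith
    nlinarith
  -- coefficient sum of `F`
  have hCB0 : 0 ≤ CB := le_trans (by positivity) hCB
  have hGL : Lw ((((n₁:ℝ) + 1) * (u + 1)) ^ M * CB) G := by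
    have e1 := Lw_V2 (n₁ := n₁) (κ := κ) g₂ (fun i => (H.g0 i).le) hg1 p (yT p h Q) (by
      intro D
      unfold yT
      split_ifs
      · exact yy_abs_le H.h0 H.h1 D
      · simp) Q (by
      intro D hD
      by_contra hc
      exact hD (by unfold yT; rw [if_neg hc])) M
    refine Lw_mono ?_ e1
    apply mul_le_mul_of_nonneg_left _ (by positivity)
    exact (count_sharp (κ := κ) p hp1 s hs Q hQ0).trans hCB
  have hSL : Lw (1 + u * ((n₁:ℝ) + n₂ + 1) ^ J) (fun x : Col (n₁ + n₂) κ => 1 - ∑ k, SS J k x) := by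
    have e1 : Lw 1 (fun _ : Col (n₁ + n₂) κ => (1:ℝ)) := by
      have := Lw_const (n := n₁ + n₂) (κ := κ) 1
      simpa using this
    have e2 := Lw_sum (n := n₁ + n₂) (univ : Finset κ) (fun _ => (((n₁ + n₂ : ℕ):ℝ) + 1) ^ J)
      (fun k => (SS J k : Col (n₁ + n₂) κ → ℝ)) (fun k _ => Lw_SS J k)
    have e3 := Lw_sub e1 e2
    refine Lw_mono ?_ e3
    rw [Finset.sum_const, Finset.card_univ, nsmul_eq_mul]
    push_cast
    linarith
  have hFL : Lw (((((n₁:ℝ) + 1) * (u + 1)) ^ M * CB) ^ 2 * (1 + u * ((n₁:ℝ) + n₂ + 1) ^ J)) F := by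
    have e1 := Lw_mul (Lw_mul hGL hGL) hSL
    have e2 : F = fun x => G x * G x * (1 - ∑ k, SS J k x) := by
      rw [hF]; funext x; ring
    rw [e2]
    refine Lw_mono (le_of_eq (by ring)) e1
  have htr := transfer_w 𝒜 col (Fin.append g₁ g₂) N Err _ hErr hcnt F hFL
  have hpos : 0 < ∑ a ∈ 𝒜, F (col a) := by
    have e1 := (abs_le.mp htr).1
    have e2 : N / 2 ≤ N * EE (Fin.append g₁ g₂) F := by nlinarith
    linarith
  obtain ⟨a, ha, hFa⟩ : ∃ a ∈ 𝒜, 0 < F (col a) := by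
    by_contra hc
    push Not at hc
    exact absurd (Finset.sum_nonpos hc) (not_le.mpr hpos)
  refine ⟨a, ha, fun k => ?_⟩
  by_contra hk
  push Not at hk
  have hV0 : 0 ≤ G (col a) ^ 2 := sq_nonneg _
  have h1 : 0 < 1 - ∑ k, SS J k (col a) := by
    by_contra hc
    push Not at hc
    have : F (col a) ≤ 0 := mul_nonpos_of_nonneg_of_nonpos hV0 hc
    linarith
  have hSS0 : ∀ l, 0 ≤ SS J l (col a) := by
    intro l
    refine le_trans ?_ (SS_lower J hJ l (col a))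
    split_ifs <;> norm_num
  have h2 : SS J k (col a) ≤ ∑ l, SS J l (col a) :=
    Finset.single_le_sum (fun l _ => hSS0 l) (Finset.mem_univ k)
  have h3 := SS_lower J hJ k (col a)
  rw [if_pos hk] at h3
  linarith

end Pool.Agent.Y831.RC
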