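import Pool.Agent.Y831.RC2.Blk1

set_option autoImplicit false
set_option linter.unusedSectionVars false

/-! # Combinations of elementary events with bounded coefficient sum; two blocks of primes -/

namespace Pool.Agent.Y831.RC

open Finset Pool.Agent.H256R2.SC

variable {n n₁ n₂ : ℕ} {κ : Type} [Fintype κ] [DecidableEq κ]

/-- `F` is a combination of elementary events with coefficient sum at most `B` -/
def Lw (B : ℝ) (F : Col n κ → ℝ) : Prop := Lv (fun _ => (1:ℝ)) 1 B F

theorem qq_one (D : Col n κ) : qq (fun _ => (1:ℝ)) D = 1 := by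
  unfold qq
  apply Finset.prod_eq_one
  intro i _
  cases D i <;> simp [nu1]

theorem Lw_of_Lv {p : Fin n → ℝ} {Q B : ℝ} {F : Col n κ → ℝ} (h : Lv p Q B F) : Lw B F := by
  obtain ⟨f, h1, h2, _⟩ := h
  exact ⟨f, h1, h2, fun D _ => (qq_one D).le⟩

theorem Lw_mono {B B' : ℝ} {F : Col n κ → ℝ} (hB : B ≤ B') (h : Lw B F) : Lw B' F :=
  Lv_mono le_rfl hB h

theorem Lw_mul {B B' : ℝ} {F G : Col n κ → ℝ} (hF : Lw B F) (hG : Lw B' G) :
    Lw (B * B') (fun x => F x * G x) :=
  Lw_of_Lv (Lv_mul (fun _ => le_rfl) hF hG)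

theorem Lw_const (c : ℝ) : Lw |c| (fun _ : Col n κ => c) := Lw_of_Lv (Lv_const (fun _ => 1) c)

theorem Lw_smul (c : ℝ) {B : ℝ} {F : Col n κ → ℝ} (hF : Lw B F) :
    Lw (|c| * B) (fun x => c * F x) := Lw_mul (Lw_const c) hF

theorem Lw_sum {ι : Type} (S : Finset ι) (B : ι → ℝ)
    (F : ι → Col n κ → ℝ) (hF : ∀ j ∈ S, Lw (B j) (F j)) :
    Lw (∑ j ∈ S, B j) (fun x => ∑ j ∈ S, F j x) := Lv_sum S B F hF

theorem Lw_sub {B B' : ℝ} {F G : Col n κ → ℝ} (hF : Lw B F) (hG : Lw B' G) :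
    Lw (B + B') (fun x => F x - G x) := Lv_sub hF hG

theorem Lw_prod {ι : Type} (S : Finset ι) (B : ι → ℝ)
    (F : ι → Col n κ → ℝ) (hF : ∀ j ∈ S, Lw (B j) (F j)) :
    Lw (∏ j ∈ S, B j) (fun x => ∏ j ∈ S, F j x) := by
  classical
  induction S using Finset.induction_on with
  | empty =>
    simp only [Finset.prod_empty]
    simpa using Lw_const (n := n) (κ := κ) 1
  | insert a S ha ih =>
    simp only [Finset.prod_insert ha]
    exact Lw_mul (hF a (Finset.mem_insert_self a S))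
      (ih fun j hj => hF j (Finset.mem_insert_of_mem hj))

theorem Lw_ind (D : Col n κ) : Lw 1 (fun x : Col n κ => ind D x) := by
  refine ⟨fun E => if D = E then 1 else 0, fun x => ?_, ?_, fun E _ => (qq_one E).le⟩
  · simp
  · simp only [apply_ite abs, abs_one, abs_zero]
    simp

theorem Lw_pk (K : Finset κ) (i : Fin n) :
    Lw ((Fintype.card κ : ℝ) + 1) (fun x : Col n κ => if pk K (x i) = some () then (1:ℝ) else 0) := by
  have h1 := Lw_sum K (fun _ => (1:ℝ)) (fun k (x : Col n κ) => ind (onS k {i}) x)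
    (fun k _ => Lw_ind _)
  have h2 : (fun x : Col n κ => ∑ k ∈ K, ind (onS k {i}) x) =
      fun x : Col n κ => if pk K (x i) = some () then (1:ℝ) else 0 := by
    funext x
    simp_rw [ind_onS]
    simp only [Finset.mem_singleton, forall_eq]
    cases hx : x i with
    | none => simp [pk]
    | some l =>
      by_cases hl : l ∈ K
      · rw [Finset.sum_eq_single l]
        · simp [pk, hl]
        · intro k _ hk
          rw [if_neg]
          intro h
          exact hk (Option.some.inj h).symm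
        · intro h
          exact absurd hl h
      · rw [Finset.sum_eq_zero]
        · simp [pk, hl]
        · intro k hk
          rw [if_neg]
          intro h
          exact hl ((Option.some.inj h) ▸ hk)
  rw [h2] at h1
  refine Lw_mono ?_ h1
  rw [Finset.sum_const, nsmul_eq_mul, mul_one]
  have : (K.card : ℝ) ≤ Fintype.card κ := by exact_mod_cast Finset.card_le_univ K
  linarith

theorem Lw_RB (M : ℕ) (K : Finset κ) :
    Lw ((((n : ℝ) + 1) * ((Fintype.card κ : ℝ) + 1)) ^ M) (RB M K : Col n κ → ℝ) := by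
  have h1 := Lw_sum (univ.filter (fun s : Finset (Fin n) => s.card ≤ M))
    (fun s => |(-1:ℝ) ^ s.card| * ∏ _i ∈ s, ((Fintype.card κ : ℝ) + 1))
    (fun s (x : Col n κ) => (-1) ^ s.card * ∏ i ∈ s, if pk K (x i) = some () then (1:ℝ) else 0)
    (fun s _ => Lw_smul _ (Lw_prod s _ _ fun i _ => Lw_pk K i))
  have h2 : (fun x : Col n κ => ∑ s : Finset (Fin n) with s.card ≤ M,
      (-1) ^ s.card * ∏ i ∈ s, if pk K (x i) = some () then (1:ℝ) else 0) = RB M K := by
    funext x
    unfold RB SS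
    refine Finset.sum_congr rfl fun s _ => ?_
    congr 1
    rw [Finset.prod_ite_zero, Finset.prod_const_one]
    by_cases hs : ∀ i ∈ s, pk K (x i) = some ()
    · rw [if_pos hs, if_pos hs]
    · rw [if_neg hs, if_neg hs]
  rw [h2] at h1
  refine Lw_mono ?_ h1
  have hκ : (1:ℝ) ≤ (Fintype.card κ : ℝ) + 1 := by
    have : (0:ℝ) ≤ (Fintype.card κ : ℝ) := Nat.cast_nonneg _
    linarith
  calc ∑ s : Finset (Fin n) with s.card ≤ M, |(-1:ℝ) ^ s.card| *
        ∏ _i ∈ s, ((Fintype.card κ : ℝ) + 1)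
      ≤ ∑ s : Finset (Fin n) with s.card ≤ M, ((Fintype.card κ : ℝ) + 1) ^ M := by
        apply Finset.sum_le_sum
        intro s hs
        rw [abs_pow, abs_neg, abs_one, one_pow, one_mul, Finset.prod_const]
        exact pow_le_pow_right₀ hκ (Finset.mem_filter.1 hs).2
    _ = ((univ.filter (fun s : Finset (Fin n) => s.card ≤ M)).card : ℝ) *
        ((Fintype.card κ : ℝ) + 1) ^ M := by rw [Finset.sum_const, nsmul_eq_mul]
    _ ≤ ((n:ℝ) + 1) ^ M * ((Fintype.card κ : ℝ) + 1) ^ M := by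
        apply mul_le_mul_of_nonneg_right _ (by positivity)
        have h := card_small n M
        have h' : (((univ.filter (fun s : Finset (Fin n) => s.card ≤ M)).card : ℕ) : ℝ) ≤
            (((n + 1) ^ M : ℕ) : ℝ) := by exact_mod_cast h
        push_cast at h'
        exact h'
    _ = _ := by rw [mul_pow]

/-! ### Two blocks -/

/-- first block -/
def fstc (x : Col (n₁ + n₂) κ) : Col n₁ κ := fun i => x (Fin.castAdd n₂ i)

/-- second block -/
def sndc (x : Col (n₁ + n₂) κ) : Col n₂ κ := fun i => x (Fin.natAdd n₁ i)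

theorem fstc_append (x₁ : Col n₁ κ) (x₂ : Col n₂ κ) : fstc (Fin.append x₁ x₂) = x₁ := by
  funext i
  simp [fstc, Fin.append_left]

theorem sndc_append (x₁ : Col n₁ κ) (x₂ : Col n₂ κ) : sndc (Fin.append x₁ x₂) = x₂ := by
  funext i
  simp [sndc, Fin.append_right]

theorem EE_append (g₁ : Fin n₁ → ℝ) (g₂ : Fin n₂ → ℝ) (F : Col (n₁ + n₂) κ → ℝ) :
    EE (Fin.append g₁ g₂) F = EE g₁ (fun x₁ => EE g₂ (fun x₂ => F (Fin.append x₁ x₂))) := by
  unfold EE
  rw [← (Fin.appendEquiv (α := Option κ) n₁ n₂).sum_comp, Fintype.sum_prod_type]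
  refine Finset.sum_congr rfl fun x₁ _ => ?_
  rw [Finset.mul_sum]
  refine Finset.sum_congr rfl fun x₂ _ => ?_
  rw [Fin.prod_univ_add]
  simp only [Fin.appendEquiv, Equiv.coe_fn_mk, Fin.append_left, Fin.append_right]
  ring

theorem Lw_fst {B : ℝ} {F : Col n₁ κ → ℝ} (h : Lw B F) :
    Lw B (fun x : Col (n₁ + n₂) κ => F (fstc x)) := by
  obtain ⟨f, h1, h2, _⟩ := h
  have h3 := Lw_sum (n := n₁ + n₂) (κ := κ) univ (fun D : Col n₁ κ => |f D| * 1)
    (fun D x => f D * ind (Fin.append D (fun _ : Fin n₂ => none)) x)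
    (fun D _ => Lw_smul _ (Lw_ind _))
  have h4 : (fun x : Col (n₁ + n₂) κ => F (fstc x)) = fun x => ∑ D : Col n₁ κ,
      f D * ind (Fin.append D (fun _ : Fin n₂ => none)) x := by
    funext x
    rw [h1]
    refine Finset.sum_congr rfl fun D _ => ?_
    congr 1
    rw [ind_eq_prod, ind_eq_prod, Fin.prod_univ_add]
    simp only [Fin.append_left, Fin.append_right, fstc, ne_eq, not_true_eq_false, false_imp_iff,
      if_true, Finset.prod_const_one, mul_one]
    refine Finset.prod_congr rfl fun i _ => ?_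
    congr
  rw [h4]
  refine Lw_mono ?_ h3
  simpa using h2

theorem Lw_snd {B : ℝ} {F : Col n₂ κ → ℝ} (h : Lw B F) :
    Lw B (fun x : Col (n₁ + n₂) κ => F (sndc x)) := by
  obtain ⟨f, h1, h2, _⟩ := h
  have h3 := Lw_sum (n := n₁ + n₂) (κ := κ) univ (fun D : Col n₂ κ => |f D| * 1)
    (fun D x => f D * ind (Fin.append (fun _ : Fin n₁ => none) D) x)
    (fun D _ => Lw_smul _ (Lw_ind _))
  have h4 : (fun x : Col (n₁ + n₂) κ => F (sndc x)) = fun x => ∑ D : Col n₂ κ,
      f D * ind (Fin.append (fun _ : Fin n₁ => none) D) x := by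
    funext x
    rw [h1]
    refine Finset.sum_congr rfl fun D _ => ?_
    congr 1
    rw [ind_eq_prod, ind_eq_prod, Fin.prod_univ_add]
    simp only [Fin.append_left, Fin.append_right, sndc, ne_eq, not_true_eq_false, false_imp_iff,
      if_true, Finset.prod_const_one, one_mul]
    refine Finset.prod_congr rfl fun i _ => ?_
    congr
  rw [h4]
  refine Lw_mono ?_ h3
  simpa using h2

theorem Lw_SS (J : ℕ) (k : κ) : Lw (((n:ℝ) + 1) ^ J) (SS J k : Col n κ → ℝ) :=
  Lw_of_Lv (Lv_SS (fun _ => 1) (fun _ => le_rfl) 1 (fun _ => le_rfl) le_rfl J k)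

theorem transfer_w {α : Type} [DecidableEq α] (𝒜 : Finset α) (col : α → Col n κ)
    (g : Fin n → ℝ) (N Err B : ℝ) (hErr : 0 ≤ Err)
    (hcnt : ∀ D : Col n κ,
      |((𝒜.filter (fun a => ∀ i, D i ≠ none → col a i = D i)).card : ℝ) - N * nu g D| ≤ Err)
    (F : Col n κ → ℝ) (hF : Lw B F) :
    |∑ a ∈ 𝒜, F (col a) - N * EE g F| ≤ Err * B :=
  transfer 𝒜 col (fun _ => 1) g N Err 1 B hErr (fun D _ => hcnt D) F hF

end Pool.Agent.Y831.RC
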