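import Pool.Agent.Y831.RC2.CovB2
import Pool.Agent.Y831.RC.FinC

set_option autoImplicit false

/-! # Runs of composite numbers with the constant `1/4` -/

namespace Pool.Agent.Y831.RC

open Finset Pool.Agent.H256R2.SC

theorem run_quarter : RunProp (1 / 4) := by
  intro c δ hc hc4 hδ
  obtain ⟨b, hb1, hb2, hbc⟩ : ∃ b : ℝ, 1 < b ∧ b ≤ 2 ∧ 4 * b * c < 1 := by
    refine ⟨min 2 ((1 + 1 / (4 * c)) / 2), lt_min (by norm_num) ?_, min_le_left _ _, ?_⟩
    · have h1 : 1 < 1 / (4 * c) := by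
        rw [lt_div_iff₀ (by positivity)]
        linarith
      linarith
    · have h1 : min 2 ((1 + 1 / (4 * c)) / 2) ≤ (1 + 1 / (4 * c)) / 2 := min_le_right _ _
      have h2 : 4 * ((1 + 1 / (4 * c)) / 2) * c = (4 * c + 1) / 2 := by
        field_simp
      have h3 : 4 * min 2 ((1 + 1 / (4 * c)) / 2) * c ≤ 4 * ((1 + 1 / (4 * c)) / 2) * c := by
        gcongr
      linarith
  exact run_of b hb1 hb2 (fun ε hε hε4 => covb b hb1 hb2 ε hε hε4) c δ hc hbc hδ

end Pool.Agent.Y831.RC
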