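import Pool.Agent.Y831.RC.Tail
import Pool.Agent.Y831.RC.HypS
import Pool.Agent.Y831.RC2.Lw

set_option autoImplicit false
set_option linter.unusedSectionVars false

/-! # Weighted sums: tail and moments -/

namespace Pool.Agent.Y831.RC

open Finset Pool.Agent.H256R2.SC

variable {n : ℕ} {κ : Type} [Fintype κ] [DecidableEq κ]

/-- total weighted mass -/
noncomputable def Zw (ω : Col n κ → ℝ) (g : Fin n → ℝ) (h : Finset (Fin n) → ℝ) : ℝ :=
  ∑ D : Col n κ, ω D * ((yy h D) ^ 2 * nu g D)

/-- changing the weight of one colour -/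
theorem step_rho {g : Fin n → ℝ} (hg : ∀ i, 0 ≤ g i) (ω : Col n κ → ℝ) (hω : ∀ D, 0 ≤ ω D)
    (r : ℝ) (hr : 0 ≤ r) (k : κ) (hωr : ∀ D, (fib D k).Nonempty → ω D ≤ r * ω (er k D))
    (W : κ → Finset (Fin n) → ℝ)
    (hW : ∀ k s, 0 ≤ W k s) (hk : W k ∅ = 1) (v : Finset (Fin n) → ℝ)
    (hv : ∀ s, 0 ≤ v s) (hv0 : v ∅ = 0) (c : ℝ)
    (hc : ∑ s : Finset (Fin n), (∏ i ∈ s, g i) * v s ≤ c) :
    ∑ D : Col n κ, ω D * (nu g D * ∏ l, (Function.update W k (fun s => W k s + v s)) l (fib D l)) ≤
      (1 + r * c) * ∑ D : Col n κ, ω D * (nu g D * ∏ l, W l (fib D l)) := by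
  classical
  set rest : Col n κ → ℝ := fun D => ∏ l ∈ univ.erase k, W l (fib D l) with hrest
  have hrest0 : ∀ D, 0 ≤ rest D := fun D => Finset.prod_nonneg fun l _ => hW _ _
  have hrest_er : ∀ D : Col n κ, rest (er k D) = rest D := by
    intro D
    simp only [hrest]
    refine Finset.prod_congr rfl fun l hl => ?_
    rw [E_fib_er_ne (Finset.ne_of_mem_erase hl)]
  have hsplit : ∀ D : Col n κ, ∏ l, W l (fib D l) = W k (fib D k) * rest D := by
    intro D
    rw [← Finset.mul_prod_erase univ _ (mem_univ k)]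
  have hsplit' : ∀ D : Col n κ, ∏ l, (Function.update W k (fun s => W k s + v s)) l (fib D l) =
      (W k (fib D k) + v (fib D k)) * rest D := by
    intro D
    rw [← Finset.mul_prod_erase univ _ (mem_univ k)]
    congr 1
    · simp
    · simp only [hrest]
      refine Finset.prod_congr rfl fun l hl => ?_
      rw [Function.update_of_ne (Finset.ne_of_mem_erase hl)]
  have hgs : ∀ s : Finset (Fin n), 0 ≤ ∏ i ∈ s, g i := fun s => Finset.prod_nonneg fun i _ => hg i
  have hc0 : 0 ≤ ∑ s : Finset (Fin n), (∏ i ∈ s, g i) * v s :=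
    Finset.sum_nonneg fun s _ => mul_nonneg (hgs s) (hv s)
  set N0 : Finset (Col n κ) := univ.filter (fun D => fib D k = ∅) with hN0
  set Z0 : ℝ := ∑ D : Col n κ, ω D * (nu g D * ∏ l, W l (fib D l)) with hZ0
  have hA : ∑ D ∈ N0, ω D * (nu g D * rest D) ≤ Z0 := by
    calc ∑ D ∈ N0, ω D * (nu g D * rest D) = ∑ D ∈ N0, ω D * (nu g D * ∏ l, W l (fib D l)) := by
          refine Finset.sum_congr rfl fun D hD => ?_
          rw [hsplit, (mem_filter.mp hD).2, hk, one_mul]
      _ ≤ _ := Finset.sum_le_sum_of_subset_of_nonneg (Finset.subset_univ _) fun D _ _ =>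
          mul_nonneg (hω D) (mul_nonneg (E_nu_nonneg hg D) (Finset.prod_nonneg fun l _ => hW _ _))
  have hB : ∑ D : Col n κ, ω D * (nu g D * (v (fib D k) * rest D)) ≤
      r * ((∑ D ∈ N0, ω D * (nu g D * rest D)) * ∑ s : Finset (Fin n), (∏ i ∈ s, g i) * v s) := by
    set F : Col n κ × Finset (Fin n) → ℝ :=
      fun q => (ω q.1 * (nu g q.1 * rest q.1)) * ((∏ i ∈ q.2, g i) * v q.2) with hF
    have hF0 : ∀ q, 0 ≤ F q := fun q =>
      mul_nonneg (mul_nonneg (hω _) (mul_nonneg (E_nu_nonneg hg _) (hrest0 _)))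
        (mul_nonneg (hgs _) (hv _))
    calc ∑ D : Col n κ, ω D * (nu g D * (v (fib D k) * rest D))
        ≤ ∑ D : Col n κ, r * F (er k D, fib D k) := by
          refine Finset.sum_le_sum fun D _ => ?_
          simp only [hF]
          rw [E_nu_er g k D, hrest_er]
          by_cases hD : (fib D k).Nonempty
          · have h1 := hωr D hD
            have h2 : 0 ≤ (∏ i ∈ fib D k, g i) * nu g (er k D) * (v (fib D k) * rest D) :=
              mul_nonneg (mul_nonneg (hgs _) (E_nu_nonneg hg _)) (mul_nonneg (hv _) (hrest0 _))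
            refine (mul_le_mul_of_nonneg_right h1 h2).trans (le_of_eq ?_)
            ring
          · rw [Finset.not_nonempty_iff_eq_empty] at hD
            rw [hD, hv0]
            simp
      _ = r * ∑ D : Col n κ, F (er k D, fib D k) := by rw [Finset.mul_sum]
      _ = r * ∑ q ∈ univ.image (fun D : Col n κ => (er k D, fib D k)), F q := by
          congr 1
          rw [Finset.sum_image]
          intro D _ D' _ h
          exact E_inj k h
      _ ≤ r * ∑ q ∈ N0 ×ˢ (univ : Finset (Finset (Fin n))), F q := by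
          apply mul_le_mul_of_nonneg_left _ hr
          refine Finset.sum_le_sum_of_subset_of_nonneg ?_ fun q _ _ => hF0 q
          intro q hq
          obtain ⟨D, _, rfl⟩ := mem_image.mp hq
          rw [mem_product]
          refine ⟨?_, mem_univ _⟩
          rw [hN0, mem_filter]
          exact ⟨mem_univ _, E_fib_er_self k D⟩
      _ = _ := by
          congr 1
          rw [Finset.sum_product, Finset.sum_mul]
          refine Finset.sum_congr rfl fun D _ => ?_
          rw [Finset.mul_sum]
  have hZ00 : 0 ≤ Z0 := Finset.sum_nonneg fun D _ =>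
    mul_nonneg (hω D) (mul_nonneg (E_nu_nonneg hg D) (Finset.prod_nonneg fun l _ => hW _ _))
  have hmain : ∑ D : Col n κ, ω D *
      (nu g D * ∏ l, (Function.update W k (fun s => W k s + v s)) l (fib D l)) =
      Z0 + ∑ D : Col n κ, ω D * (nu g D * (v (fib D k) * rest D)) := by
    rw [hZ0, ← Finset.sum_add_distrib]
    refine Finset.sum_congr rfl fun D _ => ?_
    rw [hsplit, hsplit']
    ring
  rw [hmain]
  have h1 := mul_le_mul hA hc hc0 hZ00
  have h2 := mul_le_mul_of_nonneg_left h1 hr
  have h3 := hB.trans h2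
  calc Z0 + ∑ D : Col n κ, ω D * (nu g D * (v (fib D k) * rest D)) ≤ Z0 + r * (Z0 * c) := by
        linarith
    _ = _ := by ring

theorem tail_rho {p g : Fin n → ℝ} {h : Finset (Fin n) → ℝ} {z K v₀ : ℝ}
    (H : HypS p g h z K v₀) (ω : Col n κ → ℝ) (hω : ∀ D, 0 ≤ ω D)
    (r : ℝ) (hr : 0 ≤ r) (hωr : ∀ D k, (fib D k).Nonempty → ω D ≤ r * ω (er k D))
    (η : ℝ) (hη0 : 0 < η) (hη1 : η ≤ 1) (Q' : ℝ) (hQ' : 0 < Q') :
    ∑ D : Col n κ with Q' < qq p D, ω D * ((yy h D) ^ 2 * nu g D) ≤
      Real.exp (η * ((1 + η) * (Fintype.card κ : ℝ) * (r * K) / Real.log z -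
        Real.log Q' / Real.log z)) * Zw ω g h := by
  classical
  have hlz : 0 < Real.log z := Real.log_pos H.z1
  have hg : ∀ i, 0 ≤ g i := fun i => (H.g0 i).le
  have hp1 : ∀ s : Finset (Fin n), 1 ≤ ∏ i ∈ s, p i := H.prod_ge_one
  have hlp : ∀ s : Finset (Fin n), 0 ≤ Real.log (∏ i ∈ s, p i) := fun s =>
    Real.log_nonneg (hp1 s)
  have he1 : ∀ s, 1 ≤ Ee p z η s := fun s =>
    Real.one_le_exp (mul_nonneg hη0.le (div_nonneg (hlp s) hlz.le))
  set W : Finset κ → κ → Finset (Fin n) → ℝ := fun T k s =>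
    (al h s) ^ 2 * (if k ∈ T then Ee p z η s else 1) with hW
  have hW0 : ∀ T k s, 0 ≤ W T k s := by
    intro T k s
    simp only [hW]
    refine mul_nonneg (sq_nonneg _) ?_
    split_ifs
    · exact zero_le_one.trans (he1 s)
    · exact zero_le_one
  set v : Finset (Fin n) → ℝ := fun s => (al h s) ^ 2 * (Ee p z η s - 1) with hv
  have hv0 : ∀ s, 0 ≤ v s := fun s => mul_nonneg (sq_nonneg _) (by linarith [he1 s])
  have hve : v ∅ = 0 := by simp [hv, Ee]
  have hcost : ∑ s : Finset (Fin n), (∏ i ∈ s, g i) * v s ≤ η * (1 + η) * K / Real.log z := by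
    have hempty : ∀ s : Finset (Fin n), ¬ s.Nonempty → (∏ i ∈ s, g i) * v s = 0 := by
      intro s hs
      rw [Finset.not_nonempty_iff_eq_empty] at hs
      subst hs
      simp [hv, Ee]
    calc ∑ s : Finset (Fin n), (∏ i ∈ s, g i) * v s
        = ∑ s : Finset (Fin n) with s.Nonempty, (∏ i ∈ s, g i) * v s := by
          rw [Finset.sum_filter]
          refine Finset.sum_congr rfl fun s _ => ?_
          split_ifs with hs
          · rfl
          · exact hempty s hs
      _ ≤ ∑ s : Finset (Fin n) with s.Nonempty,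
            (η * (1 + η) / Real.log z) * ((h s) ^ 2 * (∏ i ∈ s, g i) * Real.log (∏ i ∈ s, p i)) := by
          refine Finset.sum_le_sum fun s hs => ?_
          have hsne : s ≠ ∅ := (mem_filter.mp hs).2.ne_empty
          have hal : (al h s) ^ 2 = (h s) ^ 2 := by
            unfold al
            rw [if_neg hsne, neg_sq, mul_pow, ← pow_mul, mul_comm s.card 2, pow_mul]
            norm_num
          have hgs : 0 ≤ ∏ i ∈ s, g i := Finset.prod_nonneg fun i _ => hg i
          simp only [hv]
          rw [hal]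
          by_cases hh : h s = 0
          · rw [hh]
            simp
          · have hz := H.supp s hh
            have hx0 : 0 ≤ Real.log (∏ i ∈ s, p i) / Real.log z := div_nonneg (hlp s) hlz.le
            have hx1 : Real.log (∏ i ∈ s, p i) / Real.log z ≤ 1 := by
              rw [div_le_one hlz]
              exact Real.log_le_log (by linarith [hp1 s]) hz
            have hexp : Ee p z η s - 1 ≤ η * (1 + η) * (Real.log (∏ i ∈ s, p i) / Real.log z) := by
              unfold Ee
              exact exp_sub_one_le hη0.le hη1 hx0 hx1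
            calc (∏ i ∈ s, g i) * ((h s) ^ 2 * (Ee p z η s - 1))
                ≤ (∏ i ∈ s, g i) * ((h s) ^ 2 *
                  (η * (1 + η) * (Real.log (∏ i ∈ s, p i) / Real.log z))) := by
                  gcongr
              _ = _ := by ring
      _ = (η * (1 + η) / Real.log z) * ∑ s : Finset (Fin n) with s.Nonempty,
            (h s) ^ 2 * (∏ i ∈ s, g i) * Real.log (∏ i ∈ s, p i) := by
          rw [Finset.mul_sum]
      _ ≤ (η * (1 + η) / Real.log z) * K := by
          have := H.cost
          gcongr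
      _ = η * (1 + η) * K / Real.log z := by ring
  set c0 : ℝ := r * (η * (1 + η) * K / Real.log z) with hc0
  have hc00 : 0 ≤ c0 := by
    have := H.K0
    rw [hc0]; positivity
  set Z : Finset κ → ℝ := fun T => ∑ D : Col n κ, ω D * (nu g D * ∏ l, W T l (fib D l)) with hZ
  have hind : ∀ T : Finset κ, Z T ≤ (1 + c0) ^ T.card * Z ∅ := by
    intro T
    induction T using Finset.induction_on with
    | empty => simp
    | insert k T hkT ih =>
      have hupd : W (insert k T) = Function.update (W T) k (fun s => W T k s + v s) := by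
        funext l s
        by_cases hl : l = k
        · subst hl
          simp only [Function.update_self, hW, hv, mem_insert_self, if_true, if_neg hkT]
          ring
        · rw [Function.update_of_ne hl]
          simp only [hW, mem_insert, hl, false_or]
      have hWk : W T k ∅ = 1 := by
        simp [hW, al, hkT]
      have h1 := step_rho hg ω hω r hr k (fun D => hωr D k) (W T) (hW0 T) hWk v hv0 hve _ hcost
      have h2 : Z (insert k T) = ∑ D : Col n κ, ω D *
          (nu g D * ∏ l, (Function.update (W T) k (fun s => W T k s + v s)) l (fib D l)) := by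
        simp only [hZ]
        rw [hupd]
      rw [h2, Finset.card_insert_of_notMem hkT, pow_succ', mul_assoc]
      have h3 : 0 ≤ 1 + c0 := by linarith
      have h4 : (1 + c0) * Z T ≤ (1 + c0) * ((1 + c0) ^ T.card * Z ∅) :=
        mul_le_mul_of_nonneg_left ih h3
      exact h1.trans h4
  have hZ0 : Z ∅ = Zw ω g h := by
    simp only [hZ]
    unfold Zw
    refine Finset.sum_congr rfl fun D _ => ?_
    have : ∏ k, W ∅ k (fib D k) = (yy h D) ^ 2 := by
      unfold yy
      rw [← Finset.prod_pow]
      refine Finset.prod_congr rfl fun k _ => ?_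
      simp [hW]
    rw [this]
    ring
  have hZs0 : 0 ≤ Zw ω g h := by
    unfold Zw
    exact Finset.sum_nonneg fun D _ => mul_nonneg (hω D) (mul_nonneg (sq_nonneg _) (E_nu_nonneg hg D))
  have hZu : Z univ = ∑ D : Col n κ, ω D *
      ((yy h D) ^ 2 * nu g D * Real.exp (η * (Real.log (qq p D) / Real.log z))) := by
    simp only [hZ]
    refine Finset.sum_congr rfl fun D _ => ?_
    have h1 : ∏ k, W univ k (fib D k) =
        (yy h D) ^ 2 * Real.exp (η * (Real.log (qq p D) / Real.log z)) := by
      have h2 : ∀ k, W univ k (fib D k) = (al h (fib D k)) ^ 2 * Ee p z η (fib D k) := by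
        intro k
        simp [hW]
      simp_rw [h2]
      rw [Finset.prod_mul_distrib]
      unfold yy
      rw [Finset.prod_pow]
      congr 1
      unfold Ee
      rw [← Real.exp_sum, ← Finset.mul_sum, ← Finset.sum_div, E_qq, Real.log_prod]
      intro k _
      have := hp1 (fib D k)
      linarith
    rw [h1]
    ring
  have hu := hind univ
  rw [hZ0, hZu, Finset.card_univ] at hu
  have hR : ∑ D : Col n κ with Q' < qq p D, ω D * ((yy h D) ^ 2 * nu g D) ≤
      Real.exp (-(η * (Real.log Q' / Real.log z))) * ∑ D : Col n κ, ω D *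
        ((yy h D) ^ 2 * nu g D * Real.exp (η * (Real.log (qq p D) / Real.log z))) := by
    rw [Finset.mul_sum]
    refine le_trans ?_ (Finset.sum_le_sum_of_subset_of_nonneg
      (Finset.filter_subset (fun D : Col n κ => Q' < qq p D) univ)
      fun D _ _ => mul_nonneg (Real.exp_pos _).le (mul_nonneg (hω D)
        (mul_nonneg (mul_nonneg (sq_nonneg _) (E_nu_nonneg hg D)) (Real.exp_pos _).le)))
    refine Finset.sum_le_sum fun D hD => ?_
    have hQD : Q' < qq p D := (mem_filter.mp hD).2
    have h1 : 1 ≤ Real.exp (-(η * (Real.log Q' / Real.log z))) *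
        Real.exp (η * (Real.log (qq p D) / Real.log z)) := by
      rw [← Real.exp_add]
      apply Real.one_le_exp
      rw [neg_add_eq_sub, ← mul_sub, ← sub_div]
      apply mul_nonneg hη0.le
      apply div_nonneg _ hlz.le
      linarith [Real.log_le_log hQ' hQD.le]
    have h2 : 0 ≤ ω D * ((yy h D) ^ 2 * nu g D) :=
      mul_nonneg (hω D) (mul_nonneg (sq_nonneg _) (E_nu_nonneg hg D))
    calc ω D * ((yy h D) ^ 2 * nu g D) = ω D * ((yy h D) ^ 2 * nu g D) * 1 := (mul_one _).symm
      _ ≤ ω D * ((yy h D) ^ 2 * nu g D) * (Real.exp (-(η * (Real.log Q' / Real.log z))) *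
          Real.exp (η * (Real.log (qq p D) / Real.log z))) := mul_le_mul_of_nonneg_left h1 h2
      _ = _ := by ring
  have hpow : (1 + c0) ^ Fintype.card κ ≤
      Real.exp (η * ((1 + η) * (Fintype.card κ : ℝ) * (r * K) / Real.log z)) := by
    calc (1 + c0) ^ Fintype.card κ
        ≤ (Real.exp c0) ^ Fintype.card κ := by
          refine pow_le_pow_left₀ (by linarith) ?_ _
          rw [add_comm]
          exact Real.add_one_le_exp _
      _ = _ := by
          rw [← Real.exp_nat_mul, hc0]
          congr 1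
          ring
  calc ∑ D : Col n κ with Q' < qq p D, ω D * ((yy h D) ^ 2 * nu g D)
      ≤ _ := hR
    _ ≤ Real.exp (-(η * (Real.log Q' / Real.log z))) *
        ((1 + c0) ^ Fintype.card κ * Zw ω g h) :=
        mul_le_mul_of_nonneg_left hu (Real.exp_pos _).le
    _ ≤ Real.exp (-(η * (Real.log Q' / Real.log z))) *
        (Real.exp (η * ((1 + η) * (Fintype.card κ : ℝ) * (r * K) / Real.log z)) * Zw ω g h) :=
        mul_le_mul_of_nonneg_left (mul_le_mul_of_nonneg_right hpow hZs0) (Real.exp_pos _).le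
    _ = _ := by
        rw [← mul_assoc, ← Real.exp_add]
        congr 2
        ring

open TaskF in
theorem weighted_rho {g : Fin n → ℝ} {h : Finset (Fin n) → ℝ} (hg : ∀ i, 0 ≤ g i)
    (hh0 : ∀ s, 0 ≤ h s) (hh1 : ∀ s, h s ≤ 1)
    (ω : Col n κ → ℝ) (hω : ∀ D, 0 ≤ ω D) (k₀ : κ) (hωr : ∀ D, ω D ≤ ω (er k₀ D))
    (t : ℝ) (ht : 0 ≤ t) :
    ∑ D : Col n κ, ω D * ((∏ i, bet (g i) t k₀ (D i)) * (yy h D) ^ 2) ≤
      Real.exp ((2 + 6 * t) * ∑ i, g i) * Zw ω g h := by
  have g0 := hg
  set P : ℝ := ∏ i, (1 + 3 * t * g i) with hP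
  have hP0 : 0 ≤ P := prod_nonneg fun i _ => by have := g0 i; positivity
  let W : Finset (Fin n) → ℝ := fun s => ∏ i ∈ s, ((1 + 3 * t) * g i)
  have hW0 : ∀ s, 0 ≤ W s := fun s => prod_nonneg fun i _ => by have := g0 i; positivity
  let F : Col n κ → ℝ := fun D => ω D * ((yy h D) ^ 2 * nu g D)
  have hnu0 : ∀ D : Col n κ, 0 ≤ nu g D := E_nu_nonneg hg
  have hF0 : ∀ D, 0 ≤ F D := fun D => mul_nonneg (hω D) (mul_nonneg (sq_nonneg _) (hnu0 D))
  have hterm : ∀ D : Col n κ, ω D * ((∏ i, bet (g i) t k₀ (D i)) * (yy h D) ^ 2) ≤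
      P * (F (er k₀ D) * W (fib D k₀)) := by
    intro D
    have hb : ∏ i, bet (g i) t k₀ (D i) ≤ P * (nu g (er k₀ D) * W (fib D k₀)) := by
      have hWW : W (fib D k₀) = ∏ i, (if D i = some k₀ then (1 + 3 * t) * g i else 1) := by
        simp only [W, fib]
        rw [prod_filter]
      rw [hWW, hP]
      unfold nu
      rw [← prod_mul_distrib, ← prod_mul_distrib]
      apply prod_le_prod
      · intro i _
        have := g0 i
        unfold bet
        split
        · positivity
        · split <;> positivity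
      · intro i _
        have hg := g0 i
        have h3 : 0 ≤ 3 * t * g i := by positivity
        cases hD : D i with
        | none => simp [bet, er, hD, nu1]
        | some l =>
          by_cases hl : l = k₀
          · subst hl
            simp only [bet, if_true, er, hD, nu1]
            have h4 : 0 ≤ (1 + 3 * t) * g i := by positivity
            nlinarith
          · have hl' : ¬ (some l = some k₀) := fun e => hl (Option.some.inj e)
            simp only [bet, if_neg hl, er, hD, if_neg hl', nu1]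
            nlinarith
    have hbn : 0 ≤ P * (nu g (er k₀ D) * W (fib D k₀)) :=
      mul_nonneg hP0 (mul_nonneg (hnu0 _) (hW0 _))
    have hb2 : (∏ i, bet (g i) t k₀ (D i)) * (yy h D) ^ 2 ≤
        (P * (nu g (er k₀ D) * W (fib D k₀))) * (yy h (er k₀ D)) ^ 2 :=
      mul_le_mul hb (yy_sq_le hh0 hh1 k₀ D) (sq_nonneg _) hbn
    calc ω D * ((∏ i, bet (g i) t k₀ (D i)) * (yy h D) ^ 2)
        ≤ ω D * ((P * (nu g (er k₀ D) * W (fib D k₀))) * (yy h (er k₀ D)) ^ 2) :=
          mul_le_mul_of_nonneg_left hb2 (hω D)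
      _ ≤ ω (er k₀ D) * ((P * (nu g (er k₀ D) * W (fib D k₀))) * (yy h (er k₀ D)) ^ 2) :=
          mul_le_mul_of_nonneg_right (hωr D) (mul_nonneg hbn (sq_nonneg _))
      _ = P * (F (er k₀ D) * W (fib D k₀)) := by simp only [F]; ring
  have hsum : ∑ D : Col n κ, F (er k₀ D) * W (fib D k₀) ≤ (∑ D : Col n κ, F D) * ∑ s, W s := by
    rw [sum_mul_sum, ← sum_product']
    have e : ∑ D : Col n κ, F (er k₀ D) * W (fib D k₀) =
        ∑ x ∈ univ.image (fun D : Col n κ => (er k₀ D, fib D k₀)), F x.1 * W x.2 := by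
      rw [sum_image]
      intro a _ b _ hab
      exact inj k₀ hab
    rw [e]
    apply sum_le_sum_of_subset_of_nonneg
    · intro x _
      simp
    · intro x _ _
      exact mul_nonneg (hF0 _) (hW0 _)
  have hWs : ∑ s, W s = ∏ i, (1 + (1 + 3 * t) * g i) := by
    rw [prod_one_add]
    simp [W]
  have e1 : P ≤ Real.exp (3 * t * ∑ i, g i) := by
    rw [mul_sum, Real.exp_sum]
    apply prod_le_prod
    · intro i _
      have := g0 i
      positivity
    · intro i _
      have := Real.add_one_le_exp (3 * t * g i)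
      linarith
  have e2 : ∏ i, (1 + (1 + 3 * t) * g i) ≤ Real.exp ((1 + 3 * t) * ∑ i, g i) := by
    rw [mul_sum, Real.exp_sum]
    apply prod_le_prod
    · intro i _
      have := g0 i
      positivity
    · intro i _
      have := Real.add_one_le_exp ((1 + 3 * t) * g i)
      linarith
  have hZ0 : 0 ≤ Zw ω g h := sum_nonneg fun D _ => hF0 D
  have hG0 : 0 ≤ ∑ i, g i := sum_nonneg fun i _ => g0 i
  calc ∑ D : Col n κ, ω D * ((∏ i, bet (g i) t k₀ (D i)) * (yy h D) ^ 2)
      ≤ ∑ D : Col n κ, P * (F (er k₀ D) * W (fib D k₀)) := sum_le_sum fun D _ => hterm D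
    _ = P * ∑ D : Col n κ, F (er k₀ D) * W (fib D k₀) := by rw [mul_sum]
    _ ≤ P * (Zw ω g h * ∏ i, (1 + (1 + 3 * t) * g i)) := by
        rw [← hWs]
        exact mul_le_mul_of_nonneg_left hsum hP0
    _ ≤ Real.exp (3 * t * ∑ i, g i) * (Zw ω g h * Real.exp ((1 + 3 * t) * ∑ i, g i)) := by
        apply mul_le_mul e1 _ _ (Real.exp_pos _).le
        · exact mul_le_mul_of_nonneg_left e2 hZ0
        · apply mul_nonneg hZ0
          refine prod_nonneg fun i _ => ?_
          have := g0 i
          positivity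
    _ = Real.exp ((1 + 6 * t) * ∑ i, g i) * Zw ω g h := by
        have : Real.exp ((1 + 6 * t) * ∑ i, g i) =
            Real.exp (3 * t * ∑ i, g i) * Real.exp ((1 + 3 * t) * ∑ i, g i) := by
          rw [← Real.exp_add]
          ring_nf
        rw [this]
        ring
    _ ≤ Real.exp ((2 + 6 * t) * ∑ i, g i) * Zw ω g h := by
        apply mul_le_mul_of_nonneg_right _ hZ0
        apply Real.exp_le_exp.mpr
        nlinarith

end Pool.Agent.Y831.RC
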